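import Pool.Agent.Lib.MP_0c183c_co_P9G.Glue

/-!
# Near worlds for given `a < b` (interface to sections 3-7)
-/

set_option autoImplicit false

namespace Pool.Agent.Lib.MP_0c183c_co_P9G

open Finset

variable {rk : Finset ℚ → Finset (Sym2 ℚ) → ℕ} {rkL : Finset (Sym2 ℚ) → ℕ}
variable (h : PSys rk) (hL : FarRank rk rkL)

include h hL

/-- LEMMA 2 with the two one-sided far arrays. -/
theorem near_rest_strong (J0 : Finset ℚ) (a : ℚ) (ha : a ∉ J0) :
    ∃ (b : ℚ) (T : Finset ℚ), a < b ∧ b ∉ J0 ∧ (∀ q ∈ T, ¬ (a < q ∧ q < b)) ∧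
      insert a (insert b J0) ⊆ T ∧
      rk T ((prs (insert a (insert b J0))).erase s(a, b)) =
        rkL ((prs (insert a (insert b J0))).erase s(a, b)) ∧
      rk (T.erase b) (prs (insert a J0)) = rkL (prs (insert a J0)) ∧
      rk (T.erase a) (prs (insert b J0)) = rkL (prs (insert b J0)) := by
  obtain ⟨b, T, hab, hb, hT, hJT, hs⟩ := near_rest h hL J0 a ha
  have haT : a ∈ T := hJT (mem_insert_self _ _)
  have hbT : b ∈ T := hJT (mem_insert_of_mem (mem_insert_self _ _))
  have hJ0T : J0 ⊆ T := fun q hq => hJT (mem_insert_of_mem (mem_insert_of_mem hq))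
  -- a far world for `J0 + a`
  obtain ⟨T1, hT1, hsame⟩ := exists_same h hL (insert a J0)
  -- move it away from `(a, b]`, keeping `J0 + a`
  have hT0 : ∀ q ∈ insert a J0, q ≤ a ∨ b < q := by
    intro q hq
    rcases mem_insert.1 hq with rfl | hq
    · exact Or.inl le_rfl
    · by_contra hc
      rw [not_or, not_le, not_lt] at hc
      rcases lt_or_eq_of_le hc.2 with h1 | h1
      · exact hT q (hJ0T hq) ⟨hc.1, h1⟩
      · exact hb (h1 ▸ hq)
  -- the map sends `b` to itself as well: extend on `J0 + a + b`, then drop `b`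
  set T1' : Finset ℚ := T1.filter (fun q => ¬ (a < q ∧ q ≤ b)) with hT1'
  obtain ⟨g, hg1, hg2, hg3⟩ : ∃ g : ℚ → ℚ, StrictMonoOn g T1 ∧ (∀ q ∈ insert a J0, g q = q) ∧
      ∀ q ∈ T1, ¬ (a < g q ∧ g q ≤ b) := by
    -- shift the elements between `a` and `b` to the right of `b`
    -- `c` = the next element of `J0` (or anything larger)
    obtain ⟨c, hc1, hc2⟩ := Order.exists_between_finsets ({b} : Finset ℚ)
      ((insert a J0).filter (b < ·))
      (by
        intro x hx y hy
        rw [mem_singleton] at hx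
        rw [hx]
        exact (mem_filter.1 hy).2)
    have hbc : b < c := hc1 b (mem_singleton_self _)
    have haJ : a ∉ J0 := ha
    -- the map: `q ≤ a` fixed, `a < q < d` goes affinely into `(b, d)`
    -- it is enough to place finitely many points: use `exists_extend` on `J0 + a + x`
    by_cases hemp : (T1.filter (a < ·)).Nonempty
    · -- the least element above `a`
      set x := (T1.filter (a < ·)).min' hemp with hx
      have hxm := (T1.filter (a < ·)).min'_mem hemp
      rw [← hx, mem_filter] at hxm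
      have hxle : ∀ q ∈ T1, a < q → x ≤ q := fun q hq haq =>
        min'_le _ _ (mem_filter.2 ⟨hq, haq⟩)
      by_cases hxJ : x ∈ insert a J0
      · -- the next element is in `J0`: nothing to do
        have hbx : b < x := (hT0 x hxJ).resolve_left (not_le.2 hxm.2)
        refine ⟨id, fun p _ q _ hpq => hpq, fun q _ => rfl, ?_⟩
        rintro q hq ⟨h1, h2⟩
        exact lt_irrefl _ (hbx.trans_le ((hxle q hq h1).trans h2))
      · -- move `x` to `c`
        have hf : StrictMonoOn (fun q => if q = x then c else q) (insert x (insert a J0) : Finset ℚ) := by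
          intro p hp q hq hpq
          rw [mem_coe, mem_insert] at hp hq
          by_cases hpx : p = x
          · have hqx : q ≠ x := fun h' => by rw [hpx, h'] at hpq; exact lt_irrefl _ hpq
            have hqI : q ∈ insert a J0 := hq.resolve_left hqx
            simp only [if_pos hpx, if_neg hqx]
            refine hc2 q (mem_filter.2 ⟨hqI, ?_⟩)
            exact (hT0 q hqI).resolve_left (not_le.2 (hxm.2.trans (hpx ▸ hpq)))
          · have hpI : p ∈ insert a J0 := hp.resolve_left hpx
            by_cases hqx : q = x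
            · simp only [if_neg hpx, if_pos hqx]
              rcases hT0 p hpI with h1 | h1
              · exact (h1.trans_lt hab).trans hbc
              · -- `b < p < x`, impossible by minimality of `x`
                exact absurd (hxle p (hT1 hpI) (hab.trans h1)) (not_le.2 (hqx ▸ hpq))
            · simp only [if_neg hpx, if_neg hqx]
              exact hpq
        have hsub : insert x (insert a J0) ⊆ T1 := insert_subset hxm.1 hT1
        obtain ⟨g, hg1, hg2⟩ := exists_extend hsub hf
        refine ⟨g, hg1, ?_, ?_⟩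
        · intro q hq
          rw [hg2 q (mem_insert_of_mem hq)]
          have : q ≠ x := fun h' => hxJ (h' ▸ hq)
          simp only [if_neg this]
        · rintro q hq ⟨h1, h2⟩
          have hgx : g x = c := by
            rw [hg2 x (mem_insert_self _ _)]
            simp
          have hga : g a = a := by
            rw [hg2 a (mem_insert_of_mem (mem_insert_self _ _))]
            have : a ≠ x := hxm.2.ne
            simp only [if_neg this]
          have haq : a < q := by
            rw [← hg1.lt_iff_lt (mem_coe.2 (hT1 (mem_insert_self _ _))) (mem_coe.2 hq), hga]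
            exact h1
          have h3 : g x ≤ g q :=
            (hg1.le_iff_le (mem_coe.2 hxm.1) (mem_coe.2 hq)).2 (hxle q hq haq)
          rw [hgx] at h3
          exact lt_irrefl _ (hbc.trans_le (h3.trans h2))
    · refine ⟨id, fun p _ q _ hpq => hpq, fun q _ => rfl, ?_⟩
      rintro q hq ⟨h1, -⟩
      exact hemp ⟨q, mem_filter.2 ⟨hq, h1⟩⟩
  have hIg : (insert a J0).image g = insert a J0 := by
    ext q
    rw [mem_image]
    exact ⟨fun ⟨p, hp, hpq⟩ => by rw [← hpq, hg2 p hp]; exact hp, fun hq => ⟨q, hq, hg2 q hq⟩⟩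
  have hinj : Set.InjOn g (insert a J0 : Finset ℚ) := hg1.injOn.mono (by exact_mod_cast hT1)
  -- first far world `U1`, no element in `(a, b]`
  set U1 : Finset ℚ := T1.image g with hU1
  have hIU1 : insert a J0 ⊆ U1 := by rw [← hIg, hU1]; exact image_subset_image hT1
  have hU1n : ∀ q ∈ U1, ¬ (a < q ∧ q ≤ b) := by
    intro q hq
    obtain ⟨p, hp, rfl⟩ := mem_image.1 hq
    exact hg3 p hp
  have hsU1 : rk U1 (prs (insert a J0)) = rkL (prs (insert a J0)) := by
    have h1 := h.hom T1 g hg1 (prs (insert a J0)) (prs_mono hT1)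
    rw [image_prs hinj, hIg] at h1
    rw [h1]
    exact hsame _ subset_rfl
  -- second far world `U2 = U1 - a + b`
  set f : ℚ → ℚ := fun q => if q = a then b else q with hf
  have hfa : f a = b := by simp [hf]
  have hfn : ∀ q, q ≠ a → f q = q := fun q hq => by simp [hf, hq]
  have hfm : StrictMonoOn f U1 := by
    intro x hx y hy hxy
    by_cases hxa : x = a
    · subst hxa
      rw [hfa, hfn y hxy.ne']
      by_contra hc
      exact hU1n y (mem_coe.1 hy) ⟨hxy, not_lt.1 hc⟩
    · by_cases hya : y = a
      · subst hya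
        rw [hfa, hfn x hxa]
        exact hxy.trans hab
      · rw [hfn x hxa, hfn y hya]
        exact hxy
  have hfJ : (insert a J0).image f = insert b J0 := by
    rw [image_insert, hfa]
    congr 1
    ext q
    rw [mem_image]
    constructor
    · rintro ⟨p, hp, rfl⟩
      rwa [hfn p (fun h' => ha (h' ▸ hp))]
    · intro hq
      exact ⟨q, hq, hfn q (fun h' => ha (h' ▸ hq))⟩
  have hbU1 : b ∉ U1 := fun hb' => hU1n b hb' ⟨hab, le_rfl⟩
  have hU2 : U1.image f ⊆ insert b (U1.erase a) := by
    intro q hq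
    obtain ⟨p, hp, rfl⟩ := mem_image.1 hq
    by_cases hpa : p = a
    · rw [hpa, hfa]; exact mem_insert_self _ _
    · rw [hfn p hpa]; exact mem_insert_of_mem (mem_erase.2 ⟨hpa, hp⟩)
  have hsU2 : rk (U1.image f) (prs (insert b J0)) = rkL (prs (insert b J0)) := by
    have h1 := h.hom U1 f hfm (prs (insert a J0)) (prs_mono hIU1)
    rw [image_prs (hfm.injOn.mono (by exact_mod_cast hIU1)), hfJ, hsU1] at h1
    rw [h1]
    refine rkL_card h hL ?_
    rw [card_insert_of_notMem ha, card_insert_of_notMem hb]
  -- the union of everything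
  refine ⟨b, T ∪ U1, hab, hb, ?_, hJT.trans subset_union_left, ?_, ?_, ?_⟩
  · rintro q hq hq2
    rcases mem_union.1 hq with hq | hq
    · exact hT q hq hq2
    · exact hU1n q hq ⟨hq2.1, hq2.2.le⟩
  · exact same_up h hL subset_union_left ((erase_subset _ _).trans (prs_mono hJT)) hs
  · refine same_up h hL (T := U1) ?_ (prs_mono hIU1) hsU1
    intro q hq
    exact mem_erase.2 ⟨fun h' => hbU1 (h' ▸ hq), mem_union_right _ hq⟩
  · refine same_up h hL (T := U1.image f) ?_ ?_ hsU2
    · intro q hq
      rcases mem_insert.1 (hU2 hq) with rfl | hq'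
      · exact mem_erase.2 ⟨hab.ne', mem_union_left _ hbT⟩
      · exact mem_erase.2 ⟨(mem_erase.1 hq').1, mem_union_right _ (mem_erase.1 hq').2⟩
    · rw [← hfJ]
      exact prs_mono (image_subset_image hIU1)

/-- LEMMA 2 for given `a < b`. -/
theorem near_given (J : Finset ℚ) {a b : ℚ} (hab : a < b) (hJ : ∀ q ∈ J, q < a ∨ b < q) :
    ∃ T : Finset ℚ, insert a (insert b J) ⊆ T ∧ (∀ q ∈ T, ¬ (a < q ∧ q < b)) ∧
      (∀ X ⊆ (prs (insert a (insert b J))).erase s(a, b), rk T X = rkL X) ∧
      rk (T.erase b) (prs (insert a J)) = rkL (prs (insert a J)) ∧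
      rk (T.erase a) (prs (insert b J)) = rkL (prs (insert b J)) := by
  have haJ : a ∉ J := fun h' => by
    rcases hJ a h' with h1 | h1
    · exact lt_irrefl _ h1
    · exact lt_irrefl _ (hab.trans h1)
  have hbJ : b ∉ J := fun h' => by
    rcases hJ b h' with h1 | h1
    · exact lt_irrefl _ (hab.trans h1)
    · exact lt_irrefl _ h1
  obtain ⟨b', T2, hab', hb'J, hT2, hJT2, hs2, hsa, hsb⟩ := near_rest_strong h hL J a haJ
  set S : Finset ℚ := insert a (insert b' J) with hS
  have haS : a ∈ S := mem_insert_self _ _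
  have hbS : b' ∈ S := mem_insert_of_mem (mem_insert_self _ _)
  set f : ℚ → ℚ := fun q => if q = b' then b else q with hf
  have hfb : f b' = b := by simp [hf]
  have hfn : ∀ q, q ≠ b' → f q = q := fun q hq => by simp [hf, hq]
  have hfm : StrictMonoOn f S := by
    intro x hx y hy hxy
    have hx' := mem_coe.1 hx
    have hy' := mem_coe.1 hy
    by_cases hxb : x = b'
    · subst hxb
      rw [hfb, hfn y hxy.ne']
      have hyJ : y ∈ J := by
        rw [hS, mem_insert, mem_insert] at hy'
        rcases hy' with rfl | rfl | h'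
        · exact absurd (hab'.trans hxy) (lt_irrefl _)
        · exact absurd hxy (lt_irrefl _)
        · exact h'
      exact (hJ y hyJ).resolve_left (not_lt.2 (hab'.trans hxy).le)
    · by_cases hyb : y = b'
      · subst hyb
        rw [hfb, hfn x hxb]
        have hxa : x ≤ a := by
          by_contra hc
          exact hT2 x (hJT2 hx') ⟨not_le.1 hc, hxy⟩
        exact lt_of_le_of_lt hxa hab
      · rw [hfn x hxb, hfn y hyb]
        exact hxy
  obtain ⟨g, hg1, hg2⟩ := exists_extend hJT2 hfm
  have hga : g a = a := by rw [hg2 a haS, hfn a hab'.ne]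
  have hgb : g b' = b := by rw [hg2 b' hbS, hfb]
  have hgJ : ∀ q ∈ J, g q = q := fun q hq => by
    rw [hg2 q (mem_insert_of_mem (mem_insert_of_mem hq)), hfn q (fun h' => hb'J (h' ▸ hq))]
  have hJg : J.image g = J := by
    ext q
    rw [mem_image]
    exact ⟨fun ⟨p, hp, hpq⟩ => by rw [← hpq, hgJ p hp]; exact hp, fun hq => ⟨q, hq, hgJ q hq⟩⟩
  have hgS : S.image g = insert a (insert b J) := by
    rw [hS, image_insert, image_insert, hga, hgb, hJg]
  have hginj : Set.InjOn g S := hg1.injOn.mono (by exact_mod_cast hJT2)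
  have hX : ((prs S).erase s(a, b')).image (Sym2.map g) =
      (prs (insert a (insert b J))).erase s(a, b) := by
    rw [image_erase_of_injOn (map_injOn hginj) (mem_prs.2 ⟨haS, hbS, hab'.ne⟩),
      image_prs hginj, hgS, Sym2.map_mk, hga, hgb]
  have hs3 : rk (T2.image g) ((prs (insert a (insert b J))).erase s(a, b)) =
      rkL ((prs (insert a (insert b J))).erase s(a, b)) := by
    rw [← hX, h.hom T2 g hg1 _ ((erase_subset _ _).trans (prs_mono hJT2)),
      rkL_hom h hL (S := S) (hg1.mono (by exact_mod_cast hJT2)) (erase_subset _ _), hs2]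
  have hsubT3 : insert a (insert b J) ⊆ T2.image g := by
    rw [← hgS]; exact image_subset_image hJT2
  have haT2 : a ∈ T2 := hJT2 haS
  have hbT2 : b' ∈ T2 := hJT2 hbS
  refine ⟨T2.image g, hsubT3, ?_, ?_, ?_, ?_⟩
  · rintro q hq hq2
    obtain ⟨p, hp, rfl⟩ := mem_image.1 hq
    refine hT2 p hp ⟨?_, ?_⟩
    · rw [← hg1.lt_iff_lt (mem_coe.2 haT2) (mem_coe.2 hp), hga]
      exact hq2.1
    · rw [← hg1.lt_iff_lt (mem_coe.2 hp) (mem_coe.2 hbT2), hgb]
      exact hq2.2
  · intro X hX
    exact same_sub h hL hX ((erase_subset _ _).trans (prs_mono hsubT3)) hs3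
  · have e1 : (T2.image g).erase b = (T2.erase b').image g := by
      rw [image_erase_of_injOn hg1.injOn hbT2, hgb]
    have hsub : insert a J ⊆ T2.erase b' := by
      intro q hq
      refine mem_erase.2 ⟨?_, ?_⟩
      · rintro rfl
        rcases mem_insert.1 hq with h1 | h1
        · exact hab'.ne' h1
        · exact hb'J h1
      · rcases mem_insert.1 hq with rfl | h1
        · exact haT2
        · exact hJT2 (mem_insert_of_mem (mem_insert_of_mem h1))
    have hm : StrictMonoOn g (T2.erase b' : Finset ℚ) :=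
      hg1.mono (by exact_mod_cast erase_subset _ _)
    have h1 := h.hom _ g hm (prs (insert a J)) (prs_mono hsub)
    rw [image_prs (hm.injOn.mono (by exact_mod_cast hsub)), image_insert, hga, hJg, ← e1, hsa] at h1
    exact h1
  · have e1 : (T2.image g).erase a = (T2.erase a).image g := by
      rw [image_erase_of_injOn hg1.injOn haT2, hga]
    have hsub : insert b' J ⊆ T2.erase a := by
      intro q hq
      refine mem_erase.2 ⟨?_, ?_⟩
      · rintro rfl
        rcases mem_insert.1 hq with h1 | h1
        · exact hab'.ne h1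
        · exact haJ h1
      · rcases mem_insert.1 hq with rfl | h1
        · exact hbT2
        · exact hJT2 (mem_insert_of_mem (mem_insert_of_mem h1))
    have hm : StrictMonoOn g (T2.erase a : Finset ℚ) :=
      hg1.mono (by exact_mod_cast erase_subset _ _)
    have h1 := h.hom _ g hm (prs (insert b' J)) (prs_mono hsub)
    rw [image_prs (hm.injOn.mono (by exact_mod_cast hsub)), image_insert, hgb, hJg, ← e1, hsb] at h1
    rw [h1]
    refine rkL_card h hL ?_
    rw [card_insert_of_notMem hb'J, card_insert_of_notMem hbJ]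

/-- GROWTH in the form used by the assembly. -/
theorem growth : ∃ (r : ℕ → ℕ) (n1 α : ℕ),
    (∀ n, n1 ≤ n → r (n + 1) = r n + (beta rkL * n + α)) ∧ (∀ S : Finset ℚ, rkL (prs S) = r S.card) ∧
    ∀ (S : Finset ℚ) (x y : ℚ), x ∈ S → y ∈ S → x ≠ y →
      rkL ((prs S).erase s(x, y)) + beta rkL ≤ rkL (prs S) := by
  obtain ⟨n0, a0, hg⟩ := rn_growth h hL
  refine ⟨rn rkL, n0, a0, fun n hn => ?_, fun S => rkL_eq_rn h hL S,
    fun S x y hx hy hxy => beta_le h hL hx hy hxy⟩
  rw [hg n hn]
  ring

/-- Either the outer threshold is uniform, or every near fibre has dimension `≥ β + 1`. -/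
theorem uniform_or :
    (∃ E : ℕ, ∀ I T : Finset ℚ, I ⊆ T → E ≤ (T.filter fun q => ∀ i ∈ I, q < i).card →
      E ≤ (T.filter fun q => ∀ i ∈ I, i < q).card → ∀ X ⊆ prs I, rk T X = rkL X) ∨
    ∀ (J : Finset ℚ) (a b : ℚ) (T : Finset ℚ), a < b → (∀ q ∈ T, ¬ (a < q ∧ q < b)) →
      insert a (insert b J) ⊆ T → a ∉ J → b ∉ J →
      rkL ((prs (insert a (insert b J))).erase s(a, b)) + beta rkL + 1 ≤
        rk T (prs (insert a (insert b J))) := by
  by_contra hc
  rw [not_or] at hc
  obtain ⟨hc1, hc2⟩ := hc
  push Not at hc2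
  obtain ⟨J, a, b, T, hab, hT, hJT, ha, hb, hlt⟩ := hc2
  exact hc1 (uniform h hL hab (fun q hq hq2 => absurd (hT q hq hq2.1) (not_le.2 hq2.2)) hJT ha hb
    (by omega))

omit h hL in
/-- The numeric end of the filtration argument: quadratic growth with a larger coefficient is
impossible. -/
theorem growth_absurd {r : ℕ → ℕ} {β n1 α : ℕ}
    (hr : ∀ n, n1 ≤ n → r (n + 1) = r n + (β * n + α)) {C m : ℕ}
    (hlow : ∀ n, m ≤ n → (β + 1) * (n * n) ≤ 2 * r n + C * n) : False := by
  -- `2 r n ≤ β n² + B n` with `B = 2 α + 2 r n1 + ...`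
  have hup : ∀ n, n1 ≤ n → 2 * r n ≤ β * (n * n) + (2 * α + 2 * r n1) * (n + 1) := by
    intro n hn
    induction n, hn using Nat.le_induction with
    | base => nlinarith [Nat.zero_le (β * (n1 * n1)), Nat.zero_le (α * n1), Nat.zero_le (r n1 * n1)]
    | succ n hn ih =>
      rw [hr n hn]
      nlinarith [Nat.zero_le (β * (n * n)), Nat.zero_le β, Nat.zero_le (r n1)]
  set B := 2 * α + 2 * r n1 with hB
  set n := n1 + m + B + C + 2 with hn
  set N := n * (B + C + 1) with hN
  have hNn : n ≤ N := by rw [hN]; nlinarith [Nat.zero_le n, Nat.zero_le (n * (B + C))]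
  have h1 := hup N (by omega)
  have h2 := hlow N (by omega)
  have h3 : (β + 1) * (N * N) = β * (N * N) + N * N := by ring
  have h4 : N * N ≤ B * (N + 1) + C * N := by omega
  have h5 : B + C + 1 < N := by
    rw [hN, hn]
    nlinarith [Nat.zero_le ((n1 + m + B + C) * (B + C)), Nat.zero_le (B + C)]
  nlinarith [Nat.zero_le (N * (B + C))]

end Pool.Agent.Lib.MP_0c183c_co_P9G
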