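import Mathlib

/-!
# Near worlds, gluing and the uniform outer threshold (sections 1.3, 2, 8 of the text)

Everything is numeric: `rk T X` is the rank (transcendence degree) of the blocks `X` (a set of
pairs of elements of `T`) in the world in which exactly the elements of `T` are at the base point.
`rkL X` is the far rank.
-/

set_option autoImplicit false

namespace Pool.Agent.Lib.MP_0c183c_co_P9G

open Finset

/-- All pairs of `Q`. -/
def prs (Q : Finset ℚ) : Finset (Sym2 ℚ) := Q.sym2.filter fun z => ¬ z.IsDiag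

/-- The pairs `{a, q}`, `q ∈ Q`. -/
def star (a : ℚ) (Q : Finset ℚ) : Finset (Sym2 ℚ) := Q.image fun q => s(a, q)

/-- A homogeneous monotone system of polymatroids. -/
structure PSys (rk : Finset ℚ → Finset (Sym2 ℚ) → ℕ) : Prop where
  mono : ∀ (T : Finset ℚ) (X Y : Finset (Sym2 ℚ)), X ⊆ Y → Y ⊆ prs T → rk T X ≤ rk T Y
  submod : ∀ (T : Finset ℚ) (X Y : Finset (Sym2 ℚ)), X ⊆ prs T → Y ⊆ prs T →
    rk T (X ∪ Y) + rk T (X ∩ Y) ≤ rk T X + rk T Y
  anti : ∀ (T T' : Finset ℚ) (X : Finset (Sym2 ℚ)), T ⊆ T' → X ⊆ prs T → rk T' X ≤ rk T X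
  hom : ∀ (T : Finset ℚ) (f : ℚ → ℚ), StrictMonoOn f T → ∀ X ⊆ prs T,
    rk (T.image f) (X.image (Sym2.map f)) = rk T X
  restr : ∀ (T T' : Finset ℚ) (X Y : Finset (Sym2 ℚ)), T ⊆ T' → X ⊆ Y → Y ⊆ prs T →
    rk T' Y = rk T Y → rk T' X = rk T X

/-- `rkL` is the far rank of the system `rk`. -/
structure FarRank (rk : Finset ℚ → Finset (Sym2 ℚ) → ℕ) (rkL : Finset (Sym2 ℚ) → ℕ) : Prop where
  le : ∀ (T : Finset ℚ) (X : Finset (Sym2 ℚ)), X ⊆ prs T → rkL X ≤ rk T X
  att : ∀ (T : Finset ℚ) (X : Finset (Sym2 ℚ)), X ⊆ prs T → ∃ T', T ⊆ T' ∧ rk T' X = rkL X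

/-- The minimal rank. -/
noncomputable def farRank (rk : Finset ℚ → Finset (Sym2 ℚ) → ℕ) (X : Finset (Sym2 ℚ)) : ℕ :=
  sInf {n | ∃ T, X ⊆ prs T ∧ rk T X = n}

/-! ### pairs -/

theorem mem_prs {Q : Finset ℚ} {a b : ℚ} : s(a, b) ∈ prs Q ↔ a ∈ Q ∧ b ∈ Q ∧ a ≠ b := by
  simp only [prs, mem_filter, Finset.mk_mem_sym2_iff, Sym2.mk_isDiag_iff]
  tauto

theorem prs_mono {Q Q' : Finset ℚ} (h : Q ⊆ Q') : prs Q ⊆ prs Q' := by
  intro z
  induction z using Sym2.ind with
  | _ a b =>
    rw [mem_prs, mem_prs]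
    exact fun hz => ⟨h hz.1, h hz.2.1, hz.2.2⟩

theorem mem_star {i a b : ℚ} {Q : Finset ℚ} :
    s(a, b) ∈ star i Q ↔ (a = i ∧ b ∈ Q) ∨ (b = i ∧ a ∈ Q) := by
  simp only [star, mem_image, Sym2.eq_iff]
  constructor
  · rintro ⟨q, hq, ⟨rfl, rfl⟩ | ⟨rfl, rfl⟩⟩
    · exact Or.inl ⟨rfl, hq⟩
    · exact Or.inr ⟨rfl, hq⟩
  · rintro (⟨rfl, h⟩ | ⟨rfl, h⟩)
    · exact ⟨b, h, Or.inl ⟨rfl, rfl⟩⟩
    · exact ⟨a, h, Or.inr ⟨rfl, rfl⟩⟩

theorem image_prs {Q : Finset ℚ} {f : ℚ → ℚ} (hf : Set.InjOn f Q) :
    (prs Q).image (Sym2.map f) = prs (Q.image f) := by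
  ext z
  constructor
  · intro hz
    obtain ⟨w, hw, rfl⟩ := mem_image.1 hz
    induction w using Sym2.ind with
    | _ a b =>
      rw [mem_prs] at hw
      rw [Sym2.map_mk, mem_prs]
      exact ⟨mem_image_of_mem _ hw.1, mem_image_of_mem _ hw.2.1,
        fun h => hw.2.2 (hf (mem_coe.2 hw.1) (mem_coe.2 hw.2.1) h)⟩
  · intro hz
    induction z using Sym2.ind with
    | _ a b =>
      rw [mem_prs] at hz
      obtain ⟨h1, h2, h3⟩ := hz
      obtain ⟨x, hx, rfl⟩ := mem_image.1 h1
      obtain ⟨y, hy, rfl⟩ := mem_image.1 h2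
      refine mem_image.2 ⟨s(x, y), ?_, by rw [Sym2.map_mk]⟩
      rw [mem_prs]
      exact ⟨hx, hy, fun h => h3 (by rw [h])⟩

theorem map_injOn {Q : Finset ℚ} {f : ℚ → ℚ} (hf : Set.InjOn f Q) :
    Set.InjOn (Sym2.map f) (prs Q : Set (Sym2 ℚ)) := by
  intro z hz w hw h
  induction z using Sym2.ind with
  | _ a b =>
    induction w using Sym2.ind with
    | _ c d =>
      rw [mem_coe, mem_prs] at hz hw
      rw [Sym2.map_mk, Sym2.map_mk, Sym2.eq_iff] at h
      rw [Sym2.eq_iff]
      rcases h with ⟨h1, h2⟩ | ⟨h1, h2⟩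
      · exact Or.inl ⟨hf (mem_coe.2 hz.1) (mem_coe.2 hw.1) h1,
          hf (mem_coe.2 hz.2.1) (mem_coe.2 hw.2.1) h2⟩
      · exact Or.inr ⟨hf (mem_coe.2 hz.1) (mem_coe.2 hw.2.1) h1,
          hf (mem_coe.2 hz.2.1) (mem_coe.2 hw.1) h2⟩

theorem image_erase_of_injOn {α β : Type} [DecidableEq α] [DecidableEq β] {f : α → β}
    {X : Finset α} (hf : Set.InjOn f X) {x : α} (hx : x ∈ X) :
    (X.erase x).image f = (X.image f).erase (f x) := by
  ext z
  simp only [mem_image, mem_erase]
  constructor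
  · rintro ⟨w, ⟨h1, h2⟩, rfl⟩
    exact ⟨fun h => h1 (hf (mem_coe.2 h2) (mem_coe.2 hx) h), w, h2, rfl⟩
  · rintro ⟨h1, w, h2, rfl⟩
    exact ⟨w, ⟨fun h => h1 (by rw [h]), h2⟩, rfl⟩

theorem map_congr {Q : Finset ℚ} {f g : ℚ → ℚ} (h : ∀ x ∈ Q, f x = g x) {X : Finset (Sym2 ℚ)}
    (hX : X ⊆ prs Q) : X.image (Sym2.map f) = X.image (Sym2.map g) := by
  refine image_congr ?_
  intro z hz
  have hz' := hX (mem_coe.1 hz)
  induction z using Sym2.ind with
  | _ a b =>
    rw [mem_prs] at hz'
    rw [Sym2.map_mk, Sym2.map_mk, h a hz'.1, h b hz'.2.1]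

theorem prs_erase_union {S : Finset ℚ} {x y : ℚ} (hxy : x ≠ y) :
    prs (S.erase x) ∪ prs (S.erase y) = (prs S).erase s(x, y) := by
  ext z
  induction z using Sym2.ind with
  | _ a b =>
    simp only [mem_union, mem_erase, mem_prs, ne_eq, Sym2.eq_iff]
    constructor
    · rintro (⟨⟨h1, h2⟩, ⟨h3, h4⟩, h5⟩ | ⟨⟨h1, h2⟩, ⟨h3, h4⟩, h5⟩)
      · refine ⟨?_, h2, h4, h5⟩
        rintro (⟨rfl, rfl⟩ | ⟨rfl, rfl⟩)
        · exact h1 rfl
        · exact h3 rfl
      · refine ⟨?_, h2, h4, h5⟩
        rintro (⟨rfl, rfl⟩ | ⟨rfl, rfl⟩)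
        · exact h3 rfl
        · exact h1 rfl
    · rintro ⟨h1, h2, h3, h4⟩
      by_cases ha : a = x
      · right
        refine ⟨⟨fun h => hxy (ha.symm.trans h), h2⟩, ⟨fun h => h1 (Or.inl ⟨ha, h⟩), h3⟩, h4⟩
      · by_cases hb : b = x
        · right
          exact ⟨⟨fun h => h1 (Or.inr ⟨h, hb⟩), h2⟩, ⟨fun h => hxy (hb.symm.trans h), h3⟩, h4⟩
        · left
          exact ⟨⟨ha, h2⟩, ⟨hb, h3⟩, h4⟩

theorem prs_erase_inter {S : Finset ℚ} {x y : ℚ} :
    prs (S.erase x) ∩ prs (S.erase y) = prs ((S.erase x).erase y) := by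
  ext z
  induction z using Sym2.ind with
  | _ a b =>
    simp only [mem_inter, mem_erase, mem_prs]
    tauto

theorem prs_erase_union' {S : Finset ℚ} {x y e : ℚ} (hx : x ∈ S) (hy : y ∈ S) (hxy : x ≠ y)
    (hex : e ≠ x) (hey : e ≠ y) :
    (prs S).erase s(x, y) ∪ prs (S.erase e) = prs S := by
  ext z
  induction z using Sym2.ind with
  | _ a b =>
    simp only [mem_union, mem_erase, mem_prs, ne_eq, Sym2.eq_iff]
    constructor
    · rintro (h | h)
      · exact h.2
      · exact ⟨h.1.2, h.2.1.2, h.2.2⟩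
    · intro h
      by_cases h1 : (a = x ∧ b = y) ∨ (a = y ∧ b = x)
      · right
        rcases h1 with ⟨rfl, rfl⟩ | ⟨rfl, rfl⟩
        · exact ⟨⟨fun h' => hex h'.symm, hx⟩, ⟨fun h' => hey h'.symm, hy⟩, hxy⟩
        · exact ⟨⟨fun h' => hey h'.symm, hy⟩, ⟨fun h' => hex h'.symm, hx⟩, fun h' => hxy h'.symm⟩
      · left
        exact ⟨h1, h⟩

theorem prs_erase_inter' {S : Finset ℚ} {x y e : ℚ} :
    (prs S).erase s(x, y) ∩ prs (S.erase e) = (prs (S.erase e)).erase s(x, y) := by
  ext z
  induction z using Sym2.ind with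
  | _ a b =>
    simp only [mem_inter, mem_erase, mem_prs]
    tauto

/-! ### strictly monotone maps on finite sets -/

/-- Strictly monotone maps on finite sets extend. -/
theorem exists_extend {S T : Finset ℚ} (hST : S ⊆ T) {f : ℚ → ℚ} (hf : StrictMonoOn f S) :
    ∃ g : ℚ → ℚ, StrictMonoOn g T ∧ ∀ x ∈ S, g x = f x := by
  classical
  suffices h : ∀ U : Finset ℚ, ∃ g : ℚ → ℚ, StrictMonoOn g (S ∪ U : Finset ℚ) ∧
      ∀ x ∈ S, g x = f x by
    obtain ⟨g, hg1, hg2⟩ := h T
    rw [union_eq_right.2 hST] at hg1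
    exact ⟨g, hg1, hg2⟩
  intro U
  induction U using Finset.induction with
  | empty => exact ⟨f, by rw [union_empty]; exact hf, fun _ _ => rfl⟩
  | insert u U hu ih =>
    obtain ⟨g, hg1, hg2⟩ := ih
    by_cases huS : u ∈ S ∪ U
    · refine ⟨g, ?_, hg2⟩
      have : S ∪ insert u U = S ∪ U := by
        rw [union_insert, insert_eq_self.2 huS]
      rw [this]
      exact hg1
    · set V := S ∪ U with hV
      obtain ⟨m, hm1, hm2⟩ := Order.exists_between_finsets ((V.filter (· < u)).image g)
        ((V.filter (u < ·)).image g) (by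
          intro x hx y hy
          obtain ⟨x', hx', rfl⟩ := mem_image.1 hx
          obtain ⟨y', hy', rfl⟩ := mem_image.1 hy
          rw [mem_filter] at hx' hy'
          exact hg1 (mem_coe.2 hx'.1) (mem_coe.2 hy'.1) (hx'.2.trans hy'.2))
      refine ⟨fun x => if x = u then m else g x, ?_, ?_⟩
      · intro x hx y hy hxy
        rw [mem_coe, union_insert, mem_insert] at hx hy
        by_cases hxu : x = u
        · by_cases hyu : y = u
          · rw [hxu, hyu] at hxy
            exact absurd hxy (lt_irrefl _)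
          · simp only [if_pos hxu, if_neg hyu]
            refine hm2 _ (mem_image_of_mem _ (mem_filter.2 ⟨hy.resolve_left hyu, ?_⟩))
            rw [← hxu]; exact hxy
        · by_cases hyu : y = u
          · simp only [if_neg hxu, if_pos hyu]
            refine hm1 _ (mem_image_of_mem _ (mem_filter.2 ⟨hx.resolve_left hxu, ?_⟩))
            rw [← hyu]; exact hxy
          · simp only [if_neg hxu, if_neg hyu]
            exact hg1 (mem_coe.2 (hx.resolve_left hxu)) (mem_coe.2 (hy.resolve_left hyu)) hxy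
      · intro x hx
        have hxu : x ≠ u := fun h => huS (h ▸ mem_union_left _ hx)
        simp only [if_neg hxu]
        exact hg2 x hx

/-- Finite sets with the same number of elements are order isomorphic. -/
theorem exists_iso {A B : Finset ℚ} (h : A.card = B.card) :
    ∃ f : ℚ → ℚ, StrictMonoOn f A ∧ A.image f = B := by
  classical
  let e := A.orderIsoOfFin h
  let e' := B.orderIsoOfFin rfl
  refine ⟨fun x => if hx : x ∈ A then (e' (e.symm ⟨x, hx⟩) : ℚ) else 0, ?_, ?_⟩
  · intro x hx y hy hxy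
    rw [mem_coe] at hx hy
    simp only [dif_pos hx, dif_pos hy]
    have h1 : e.symm ⟨x, hx⟩ < e.symm ⟨y, hy⟩ := e.symm.lt_iff_lt.2 hxy
    exact e'.lt_iff_lt.2 h1
  · ext z
    constructor
    · intro hz
      obtain ⟨x, hx, rfl⟩ := mem_image.1 hz
      simp only [dif_pos hx]
      exact (e' _).2
    · intro hz
      refine mem_image.2 ⟨(e (e'.symm ⟨z, hz⟩) : ℚ), (e _).2, ?_⟩
      have h1 : ((e (e'.symm ⟨z, hz⟩) : ℚ)) ∈ A := (e _).2
      simp only [dif_pos h1]
      have h2 : (⟨(e (e'.symm ⟨z, hz⟩) : ℚ), h1⟩ : {x // x ∈ A}) = e (e'.symm ⟨z, hz⟩) := rfl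
      rw [h2, OrderIso.symm_apply_apply, OrderIso.apply_symm_apply]

/-- Two strictly monotone maps on consecutive sets can be combined. -/
theorem exists_glue {A A' : Finset ℚ} {f f' : ℚ → ℚ} (hA : ∀ x ∈ A, ∀ y ∈ A', x < y)
    (hf : StrictMonoOn f A) (hf' : StrictMonoOn f' A') (h : ∀ x ∈ A, ∀ y ∈ A', f x < f' y) :
    ∃ g : ℚ → ℚ, StrictMonoOn g (A ∪ A' : Finset ℚ) ∧ (∀ x ∈ A, g x = f x) ∧
      ∀ x ∈ A', g x = f' x := by
  classical
  refine ⟨fun x => if x ∈ A then f x else f' x, ?_, ?_, ?_⟩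
  · intro x hx y hy hxy
    rw [mem_coe, mem_union] at hx hy
    by_cases hxA : x ∈ A
    · by_cases hyA : y ∈ A
      · simp only [if_pos hxA, if_pos hyA]
        exact hf (mem_coe.2 hxA) (mem_coe.2 hyA) hxy
      · simp only [if_pos hxA, if_neg hyA]
        exact h x hxA y (hy.resolve_left hyA)
    · by_cases hyA : y ∈ A
      · exact absurd hxy (not_lt.2 (hA y hyA x (hx.resolve_left hxA)).le)
      · simp only [if_neg hxA, if_neg hyA]
        exact hf' (mem_coe.2 (hx.resolve_left hxA)) (mem_coe.2 (hy.resolve_left hyA)) hxy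
  · intro x hx
    simp only [if_pos hx]
  · intro x hx
    have : x ∉ A := fun h' => lt_irrefl x (hA x h' x hx)
    simp only [if_neg this]

theorem exists_inv {S : Finset ℚ} {f : ℚ → ℚ} (hf : StrictMonoOn f S) :
    ∃ g : ℚ → ℚ, StrictMonoOn g (S.image f : Finset ℚ) ∧ ∀ x ∈ S, g (f x) = x := by
  classical
  have h1 : ∀ x ∈ S, Function.invFunOn f (S : Set ℚ) (f x) = x := fun x hx =>
    hf.injOn.leftInvOn_invFunOn (mem_coe.2 hx)
  refine ⟨Function.invFunOn f (S : Set ℚ), ?_, h1⟩
  intro x hx y hy hxy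
  rw [mem_coe, mem_image] at hx hy
  obtain ⟨a, ha, rfl⟩ := hx
  obtain ⟨b, hb, rfl⟩ := hy
  rw [h1 a ha, h1 b hb]
  exact (hf.lt_iff_lt (mem_coe.2 ha) (mem_coe.2 hb)).1 hxy

/-! ### the far rank -/

section far

variable {rk : Finset ℚ → Finset (Sym2 ℚ) → ℕ} {rkL : Finset (Sym2 ℚ) → ℕ}

theorem farRank_far (h : PSys rk) : FarRank rk (farRank rk) where
  le := fun T X hX => Nat.sInf_le ⟨T, hX, rfl⟩
  att := by
    intro T X hX
    have hne : {n | ∃ T, X ⊆ prs T ∧ rk T X = n}.Nonempty := ⟨rk T X, T, hX, rfl⟩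
    obtain ⟨T1, h1, h2⟩ := Nat.sInf_mem hne
    refine ⟨T ∪ T1, subset_union_left, le_antisymm ?_ ?_⟩
    · exact (h.anti T1 (T ∪ T1) X subset_union_right h1).trans h2.le
    · exact Nat.sInf_le ⟨T ∪ T1, hX.trans (prs_mono subset_union_left), rfl⟩

variable (h : PSys rk) (hL : FarRank rk rkL)

include h hL

theorem same_up {T T' : Finset ℚ} {X : Finset (Sym2 ℚ)} (hT : T ⊆ T') (hX : X ⊆ prs T)
    (hs : rk T X = rkL X) : rk T' X = rkL X :=
  le_antisymm ((h.anti T T' X hT hX).trans hs.le) (hL.le T' X (hX.trans (prs_mono hT)))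

theorem same_sub {T : Finset ℚ} {X Y : Finset (Sym2 ℚ)} (hX : X ⊆ Y) (hY : Y ⊆ prs T)
    (hs : rk T Y = rkL Y) : rk T X = rkL X := by
  obtain ⟨T1, h1, h2⟩ := hL.att T X (hX.trans hY)
  rw [← h2]
  exact (h.restr T T1 X Y h1 hX hY ((same_up h hL h1 hY hs).trans hs.symm)).symm

/-- one world in which all blocks of `S` have the far rank -/
theorem exists_same (S : Finset ℚ) : ∃ T, S ⊆ T ∧ ∀ X ⊆ prs S, rk T X = rkL X := by
  obtain ⟨T, h1, h2⟩ := hL.att S (prs S) subset_rfl
  exact ⟨T, h1, fun X hX => same_sub h hL hX (prs_mono h1) h2⟩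

theorem rkL_mono {S : Finset ℚ} {X Y : Finset (Sym2 ℚ)} (hX : X ⊆ Y) (hY : Y ⊆ prs S) :
    rkL X ≤ rkL Y := by
  obtain ⟨T, h1, h2⟩ := exists_same h hL S
  rw [← h2 X (hX.trans hY), ← h2 Y hY]
  exact h.mono T X Y hX (hY.trans (prs_mono h1))

theorem rkL_submod {S : Finset ℚ} {X Y : Finset (Sym2 ℚ)} (hX : X ⊆ prs S) (hY : Y ⊆ prs S) :
    rkL (X ∪ Y) + rkL (X ∩ Y) ≤ rkL X + rkL Y := by
  obtain ⟨T, h1, h2⟩ := exists_same h hL S
  rw [← h2 X hX, ← h2 Y hY, ← h2 _ (union_subset hX hY), ← h2 _ (inter_subset_left.trans hX)]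
  exact h.submod T X Y (hX.trans (prs_mono h1)) (hY.trans (prs_mono h1))

theorem rkL_hom_le {S : Finset ℚ} {f : ℚ → ℚ} (hf : StrictMonoOn f S) {X : Finset (Sym2 ℚ)}
    (hX : X ⊆ prs S) : rkL (X.image (Sym2.map f)) ≤ rkL X := by
  obtain ⟨T, h1, h2⟩ := exists_same h hL S
  obtain ⟨g, hg1, hg2⟩ := exists_extend h1 hf
  have h3 : X.image (Sym2.map g) = X.image (Sym2.map f) := map_congr hg2 hX
  rw [← h2 X hX, ← h.hom T g hg1 X (hX.trans (prs_mono h1)), h3]
  refine hL.le _ _ ?_
  rw [← h3, ← image_prs hg1.injOn]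
  exact image_subset_image (hX.trans (prs_mono h1))

theorem rkL_hom {S : Finset ℚ} {f : ℚ → ℚ} (hf : StrictMonoOn f S) {X : Finset (Sym2 ℚ)}
    (hX : X ⊆ prs S) : rkL (X.image (Sym2.map f)) = rkL X := by
  refine le_antisymm (rkL_hom_le h hL hf hX) ?_
  obtain ⟨g, hg1, hg2⟩ := exists_inv hf
  have h1 : X.image (Sym2.map f) ⊆ prs (S.image f) := by
    rw [← image_prs hf.injOn]
    exact image_subset_image hX
  have h2 := rkL_hom_le h hL hg1 h1
  have h3 : (X.image (Sym2.map f)).image (Sym2.map g) = X := by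
    rw [image_image]
    have h4 : X.image (Sym2.map g ∘ Sym2.map f) = X.image (Sym2.map (id : ℚ → ℚ)) := by
      rw [← Sym2.map_comp]
      exact map_congr (fun x hx => hg2 x hx) hX
    rw [h4, Sym2.map_id, image_id]
  rw [h3] at h2
  exact h2

/-- the far rank of all pairs only depends on the number of elements -/
theorem rkL_card {S S' : Finset ℚ} (hc : S.card = S'.card) : rkL (prs S) = rkL (prs S') := by
  obtain ⟨f, hf1, hf2⟩ := exists_iso hc
  rw [← hf2, ← image_prs hf1.injOn]
  exact (rkL_hom h hL hf1 subset_rfl).symm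

omit hL in
/-- increments get smaller over bigger sets (in one world) -/
theorem incr_le {T : Finset ℚ} {X Y : Finset (Sym2 ℚ)} (hX : X ⊆ prs T) (hY : Y ⊆ prs T)
    {U I : Finset (Sym2 ℚ)} (hU : X ∪ Y = U) (hI : X ∩ Y = I) :
    rk T U + rk T I ≤ rk T X + rk T Y := by
  subst hU
  subst hI
  exact h.submod T X Y hX hY

theorem incrL_le {S : Finset ℚ} {X Y : Finset (Sym2 ℚ)} (hX : X ⊆ prs S) (hY : Y ⊆ prs S)
    {U I : Finset (Sym2 ℚ)} (hU : X ∪ Y = U) (hI : X ∩ Y = I) :
    rkL U + rkL I ≤ rkL X + rkL Y := by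
  subst hU
  subst hI
  exact rkL_submod h hL hX hY

end far

/-- The minimal far rank of a pair over all the other pairs. -/
noncomputable def beta (rkL : Finset (Sym2 ℚ) → ℕ) : ℕ :=
  sInf {n | ∃ (S : Finset ℚ) (x y : ℚ), x ∈ S ∧ y ∈ S ∧ x < y ∧
    rkL ((prs S).erase s(x, y)) + n = rkL (prs S)}

/-- The far rank of all pairs of `n` elements. -/
noncomputable def rn (rkL : Finset (Sym2 ℚ) → ℕ) (n : ℕ) : ℕ :=
  rkL (prs ((range n).image fun i : ℕ => (i : ℚ)))

section growth

variable {rk : Finset ℚ → Finset (Sym2 ℚ) → ℕ} {rkL : Finset (Sym2 ℚ) → ℕ}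
variable (h : PSys rk) (hL : FarRank rk rkL)

include h hL

theorem rkL_eq_rn (S : Finset ℚ) : rkL (prs S) = rn rkL S.card := by
  refine rkL_card h hL ?_
  rw [card_image_of_injective _ Nat.cast_injective, card_range]

theorem beta_le' {S : Finset ℚ} {x y : ℚ} (hx : x ∈ S) (hy : y ∈ S) (hxy : x < y) :
    rkL ((prs S).erase s(x, y)) + beta rkL ≤ rkL (prs S) := by
  have h1 : rkL ((prs S).erase s(x, y)) ≤ rkL (prs S) :=
    rkL_mono h hL (erase_subset _ _) subset_rfl
  obtain ⟨n, hn⟩ := Nat.exists_eq_add_of_le h1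
  have h2 : beta rkL ≤ n := Nat.sInf_le ⟨S, x, y, hx, hy, hxy, hn.symm⟩
  omega

theorem beta_le {S : Finset ℚ} {x y : ℚ} (hx : x ∈ S) (hy : y ∈ S) (hxy : x ≠ y) :
    rkL ((prs S).erase s(x, y)) + beta rkL ≤ rkL (prs S) := by
  rcases lt_or_gt_of_ne hxy with h1 | h1
  · exact beta_le' h hL hx hy h1
  · rw [Sym2.eq_swap]
    exact beta_le' h hL hy hx h1

theorem beta_att : ∃ (S : Finset ℚ) (x y : ℚ), x ∈ S ∧ y ∈ S ∧ x < y ∧
    rkL ((prs S).erase s(x, y)) + beta rkL = rkL (prs S) := by
  have h1 : rkL ((prs ({0, 1} : Finset ℚ)).erase s(0, 1)) ≤ rkL (prs {0, 1}) :=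
    rkL_mono h hL (erase_subset _ _) subset_rfl
  obtain ⟨n, hn⟩ := Nat.exists_eq_add_of_le h1
  have hne : {n | ∃ (S : Finset ℚ) (x y : ℚ), x ∈ S ∧ y ∈ S ∧ x < y ∧
    rkL ((prs S).erase s(x, y)) + n = rkL (prs S)}.Nonempty :=
    ⟨n, {0, 1}, 0, 1, by simp, by simp, by norm_num, hn.symm⟩
  exact Nat.sInf_mem hne

omit h hL in
theorem prs_insert {x : ℚ} {J : Finset ℚ} (hx : x ∉ J) : prs (insert x J) = prs J ∪ star x J := by
  ext z
  induction z using Sym2.ind with
  | _ a b =>
    rw [mem_prs, mem_union, mem_prs, mem_star, mem_insert, mem_insert]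
    constructor
    · rintro ⟨h1 | h1, h2 | h2, h3⟩
      · exact absurd (h1.trans h2.symm) h3
      · exact Or.inr (Or.inl ⟨h1, h2⟩)
      · exact Or.inr (Or.inr ⟨h2, h1⟩)
      · exact Or.inl ⟨h1, h2, h3⟩
    · rintro (⟨h1, h2, h3⟩ | ⟨rfl, h⟩ | ⟨rfl, h⟩)
      · exact ⟨Or.inr h1, Or.inr h2, h3⟩
      · exact ⟨Or.inl rfl, Or.inr h, fun h' => hx (h' ▸ h)⟩
      · exact ⟨Or.inr h, Or.inl rfl, fun h' => hx (h' ▸ h)⟩

theorem rn_lower (n : ℕ) : rn rkL n + beta rkL * n ≤ rn rkL (n + 1) := by
  set J : Finset ℚ := (range n).image fun i : ℕ => (i : ℚ) with hJ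
  have hJc : J.card = n := by
    rw [hJ, card_image_of_injective _ Nat.cast_injective, card_range]
  set x : ℚ := ((n : ℕ) : ℚ) with hx
  have hxJ : x ∉ J := by
    intro hm
    obtain ⟨i, hi, hi2⟩ := mem_image.1 hm
    rw [hx] at hi2
    have := Nat.cast_injective hi2
    rw [mem_range] at hi
    omega
  have hS : (insert x J).card = n + 1 := by rw [card_insert_of_notMem hxJ, hJc]
  have key : ∀ K : Finset ℚ, K ⊆ J → rkL (prs J) + beta rkL * K.card ≤ rkL (prs J ∪ star x K) := by
    intro K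
    induction K using Finset.induction with
    | empty =>
      intro _
      simp [star]
    | insert k K hk ih =>
      intro hKJ
      have hkJ : k ∈ J := hKJ (mem_insert_self _ _)
      have h1 := ih ((subset_insert _ _).trans hKJ)
      have hkx : x ≠ k := fun h' => hxJ (h' ▸ hkJ)
      have h2 := beta_le h hL (mem_insert_self x J) (mem_insert_of_mem hkJ) hkx
      have hsub : prs J ∪ star x (insert k K) ⊆ prs (insert x J) := by
        rw [prs_insert hxJ]
        exact union_subset_union subset_rfl (image_subset_image hKJ)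
      have h3 := incrL_le h hL (S := insert x J) (X := prs J ∪ star x (insert k K))
        (Y := (prs (insert x J)).erase s(x, k)) (U := prs (insert x J)) (I := prs J ∪ star x K)
        hsub (erase_subset _ _)
        (by
          ext z
          simp only [mem_union, mem_erase]
          constructor
          · rintro ((h' | h') | h')
            · exact prs_mono (subset_insert _ _) h'
            · exact hsub (mem_union_right _ h')
            · exact h'.2
          · intro hz
            by_cases hzk : z = s(x, k)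
            · left; right
              rw [hzk]
              exact mem_image_of_mem _ (mem_insert_self _ _)
            · exact Or.inr ⟨hzk, hz⟩)
        (by
          ext z
          simp only [mem_inter, mem_union, mem_erase]
          constructor
          · rintro ⟨h' | h', h4, h5⟩
            · exact Or.inl h'
            · right
              obtain ⟨q, hq, rfl⟩ := mem_image.1 h'
              rcases mem_insert.1 hq with rfl | hq
              · exact absurd rfl h4
              · exact mem_image_of_mem _ hq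
          · rintro (h' | h')
            · refine ⟨Or.inl h', ?_, prs_mono (subset_insert _ _) h'⟩
              rintro rfl
              exact hxJ (mem_prs.1 h').1
            · refine ⟨Or.inr (image_subset_image (subset_insert _ _) h'), ?_, ?_⟩
              · rintro rfl
                rcases mem_star.1 h' with ⟨_, h6⟩ | ⟨h6, _⟩
                · exact hk h6
                · exact hkx h6.symm
              · rw [prs_insert hxJ]
                exact mem_union_right _ (image_subset_image ((subset_insert _ _).trans hKJ) h'))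
      rw [card_insert_of_notMem hk, Nat.mul_succ]
      omega
  have h1 := key J subset_rfl
  rw [← prs_insert hxJ, rkL_eq_rn h hL, rkL_eq_rn h hL (insert x J), hS, hJc] at h1
  exact h1

theorem rn_upper : ∃ m, ∀ n, m ≤ n → rn rkL (n + 2) + rn rkL n ≤ 2 * rn rkL (n + 1) + beta rkL := by
  obtain ⟨S0, x, y, hx, hy, hxy, h0⟩ := beta_att h hL
  refine ⟨S0.card, fun n hn => ?_⟩
  obtain ⟨S, hS, hSc⟩ := Infinite.exists_superset_card_eq S0 (n + 2) (by omega)
  have hxS := hS hx
  have hyS := hS hy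
  have h1 := incrL_le h hL (S := S) (X := prs (S.erase x)) (Y := prs (S.erase y))
    (prs_mono (erase_subset _ _)) (prs_mono (erase_subset _ _))
    (prs_erase_union hxy.ne) (prs_erase_inter)
  have h2 := incrL_le h hL (S := S) (X := (prs S).erase s(x, y)) (Y := prs S0)
    (U := prs S) (I := (prs S0).erase s(x, y))
    (erase_subset _ _) (prs_mono hS)
    (by
      ext z
      simp only [mem_union, mem_erase]
      constructor
      · rintro (h' | h')
        · exact h'.2
        · exact prs_mono hS h'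
      · intro hz
        by_cases hzk : z = s(x, y)
        · right
          rw [hzk]
          exact mem_prs.2 ⟨hx, hy, hxy.ne⟩
        · exact Or.inl ⟨hzk, hz⟩)
    (by
      ext z
      simp only [mem_inter, mem_erase]
      exact ⟨fun h' => ⟨h'.1.1, h'.2⟩, fun h' => ⟨⟨h'.1, prs_mono hS h'.2⟩, h'.2⟩⟩)
  rw [rkL_eq_rn h hL (S.erase x), rkL_eq_rn h hL (S.erase y), rkL_eq_rn h hL ((S.erase x).erase y),
    card_erase_of_mem (mem_erase.2 ⟨hxy.ne', hyS⟩), card_erase_of_mem hxS, card_erase_of_mem hyS,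
    hSc] at h1
  rw [rkL_eq_rn h hL S, hSc] at h2
  have e1 : n + 2 - 1 = n + 1 := by omega
  have e2 : n + 1 - 1 = n := by omega
  rw [e1, e2] at h1
  omega

/-- the far ranks are eventually quadratic -/
theorem rn_growth : ∃ n0 a0, ∀ n, n0 ≤ n → rn rkL (n + 1) = rn rkL n + beta rkL * n + a0 := by
  obtain ⟨m, hm⟩ := rn_upper h hL
  have hlow := rn_lower h hL
  -- the sequence `g n = rn (n+1) - rn n - beta n`
  set g : ℕ → ℕ := fun n => rn rkL (n + 1) - rn rkL n - beta rkL * n with hg
  have hgd : ∀ n, rn rkL (n + 1) = rn rkL n + beta rkL * n + g n := by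
    intro n
    have := hlow n
    simp only [hg]
    omega
  have hanti : ∀ n, m ≤ n → g (n + 1) ≤ g n := by
    intro n hn
    have h1 := hm n hn
    have h2 := hgd n
    have h3 := hgd (n + 1)
    have h4 : beta rkL * (n + 1) = beta rkL * n + beta rkL := by ring
    have e1 : n + 1 + 1 = n + 2 := rfl
    rw [e1] at h3
    omega
  -- the minimal value from `m` on
  have hne : {k | ∃ n, m ≤ n ∧ g n = k}.Nonempty := ⟨g m, m, le_rfl, rfl⟩
  obtain ⟨n0, hn0, hgn0⟩ := Nat.sInf_mem hne
  refine ⟨n0, g n0, fun n hn => ?_⟩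
  rw [hgd n]
  congr 1
  refine le_antisymm ?_ ?_
  · induction n, hn using Nat.le_induction with
    | base => exact le_rfl
    | succ k hk ih => exact (hanti k (hn0.trans hk)).trans ih
  · rw [hgn0]
    exact Nat.sInf_le ⟨n, hn0.trans hn, rfl⟩

/-- GLUE -/
theorem glue {n0 a0 : ℕ} (hg : ∀ n, n0 ≤ n → rn rkL (n + 1) = rn rkL n + beta rkL * n + a0)
    {T S : Finset ℚ} {x y e : ℚ} (hST : S ⊆ T) (hx : x ∈ S) (hy : y ∈ S) (_he : e ∈ S)
    (hxy : x ≠ y) (hex : e ≠ x) (hey : e ≠ y) (hc : n0 + 2 ≤ S.card)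
    (h1 : rk T (prs (S.erase x)) = rkL (prs (S.erase x)))
    (h2 : rk T (prs (S.erase y)) = rkL (prs (S.erase y)))
    (h3 : rk T (prs (S.erase e)) = rkL (prs (S.erase e)))
    (hb : rkL (prs (S.erase e)) ≤ rkL ((prs (S.erase e)).erase s(x, y)) + beta rkL) :
    rk T (prs S) = rkL (prs S) := by
  have hT := prs_mono hST
  obtain ⟨n, hn⟩ : ∃ n, S.card = n + 2 := ⟨S.card - 2, by omega⟩
  have hn0 : n0 ≤ n := by omega
  have e0 := hg n hn0
  have e1 := hg (n + 1) (by omega)
  have i1 := incr_le h (T := T) (X := prs (S.erase x)) (Y := prs (S.erase y))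
    ((prs_mono (erase_subset _ _)).trans hT) ((prs_mono (erase_subset _ _)).trans hT)
    (prs_erase_union hxy) (prs_erase_inter)
  have i2 := incr_le h (T := T) (X := (prs S).erase s(x, y)) (Y := prs (S.erase e))
    ((erase_subset _ _).trans hT) ((prs_mono (erase_subset _ _)).trans hT)
    (prs_erase_union' hx hy hxy hex hey) (prs_erase_inter')
  have l1 : rkL (prs ((S.erase x).erase y)) ≤ rk T (prs ((S.erase x).erase y)) :=
    hL.le _ _ ((prs_mono ((erase_subset _ _).trans (erase_subset _ _))).trans hT)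
  have l2 : rkL ((prs (S.erase e)).erase s(x, y)) ≤ rk T ((prs (S.erase e)).erase s(x, y)) :=
    hL.le _ _ ((erase_subset _ _).trans ((prs_mono (erase_subset _ _)).trans hT))
  have l3 : rkL (prs S) ≤ rk T (prs S) := hL.le _ _ hT
  have c1 : rkL (prs (S.erase x)) = rn rkL (n + 1) := by
    rw [rkL_eq_rn h hL, card_erase_of_mem hx, hn]; rfl
  have c2 : rkL (prs (S.erase y)) = rn rkL (n + 1) := by
    rw [rkL_eq_rn h hL, card_erase_of_mem hy, hn]; rfl
  have c3 : rkL (prs ((S.erase x).erase y)) = rn rkL n := by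
    rw [rkL_eq_rn h hL, card_erase_of_mem (mem_erase.2 ⟨hxy.symm, hy⟩), card_erase_of_mem hx, hn]
    rfl
  have c4 : rkL (prs S) = rn rkL (n + 2) := by rw [rkL_eq_rn h hL, hn]
  have e2 : beta rkL * (n + 1) = beta rkL * n + beta rkL := by ring
  have e3 : n + 1 + 1 = n + 2 := rfl
  rw [e3] at e1
  omega

end growth

section near

variable {rk : Finset ℚ → Finset (Sym2 ℚ) → ℕ} {rkL : Finset (Sym2 ℚ) → ℕ}
variable (h : PSys rk) (hL : FarRank rk rkL)

theorem star_subset_prs {a : ℚ} {J K : Finset ℚ} (ha : a ∉ J) (hK : K ⊆ J) :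
    star a K ⊆ prs (insert a J) := by
  intro z hz
  obtain ⟨q, hq, rfl⟩ := mem_image.1 hz
  exact mem_prs.2 ⟨mem_insert_self _ _, mem_insert_of_mem (hK hq), fun h' => ha (h' ▸ hK hq)⟩

include h hL

/-- LEMMA 2: there is a near world in which all blocks of `J0 + a + b` except `ab` have the far
rank. -/
theorem near_rest (J0 : Finset ℚ) (a : ℚ) (ha : a ∉ J0) :
    ∃ (b : ℚ) (T : Finset ℚ), a < b ∧ b ∉ J0 ∧ (∀ q ∈ T, ¬ (a < q ∧ q < b)) ∧
      insert a (insert b J0) ⊆ T ∧
      rk T ((prs (insert a (insert b J0))).erase s(a, b)) =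
        rkL ((prs (insert a (insert b J0))).erase s(a, b)) := by
  -- minimal context
  have hne : {n | ∃ J, J0 ⊆ J ∧ a ∉ J ∧ rkL (prs J) + n = rkL (prs J ∪ star a J0)}.Nonempty := by
    have h1 : rkL (prs J0) ≤ rkL (prs J0 ∪ star a J0) :=
      rkL_mono h hL subset_union_left (S := insert a J0)
        (union_subset (prs_mono (subset_insert _ _)) (star_subset_prs ha subset_rfl))
    obtain ⟨n, hn⟩ := Nat.exists_eq_add_of_le h1
    exact ⟨n, J0, subset_rfl, ha, hn.symm⟩
  obtain ⟨J1, hJ1, haJ1, hm⟩ := Nat.sInf_mem hne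
  set m := sInf {n | ∃ J, J0 ⊆ J ∧ a ∉ J ∧ rkL (prs J) + n = rkL (prs J ∪ star a J0)} with hmdef
  have hmin : ∀ J, J0 ⊆ J → a ∉ J → rkL (prs J) + m ≤ rkL (prs J ∪ star a J0) := by
    intro J hJ haJ
    have h1 : rkL (prs J) ≤ rkL (prs J ∪ star a J0) :=
      rkL_mono h hL subset_union_left (S := insert a J)
        (union_subset (prs_mono (subset_insert _ _)) (star_subset_prs haJ hJ))
    obtain ⟨n, hn⟩ := Nat.exists_eq_add_of_le h1
    have h2 : m ≤ n := Nat.sInf_le ⟨J, hJ, haJ, hn.symm⟩
    omega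
  obtain ⟨T1, hT1, hsame⟩ := exists_same h hL (insert a J1)
  have haT1 : a ∈ T1 := hT1 (mem_insert_self _ _)
  obtain ⟨b, hb1, hb2⟩ := Order.exists_between_finsets ({a} : Finset ℚ) (T1.filter (a < ·))
    (by
      intro x hx y hy
      rw [mem_singleton] at hx
      rw [hx]
      exact (mem_filter.1 hy).2)
  have hab : a < b := hb1 a (mem_singleton_self _)
  have hbT : ∀ q ∈ T1, a < q → b < q := fun q hq haq => hb2 q (mem_filter.2 ⟨hq, haq⟩)
  have hbT1 : b ∉ T1 := fun hb => lt_irrefl _ (hbT b hb hab)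
  have hJ1T : J1 ⊆ T1 := (subset_insert _ _).trans hT1
  have hbJ1 : b ∉ J1 := fun hb => hbT1 (hJ1T hb)
  set f : ℚ → ℚ := fun q => if q = a then b else q with hf
  have hfa : f a = b := by simp [hf]
  have hfn : ∀ q, q ≠ a → f q = q := fun q hq => by simp [hf, hq]
  have hfm : StrictMonoOn f T1 := by
    intro x hx y hy hxy
    by_cases hxa : x = a
    · subst hxa
      rw [hfa, hfn y hxy.ne']
      exact hbT y (mem_coe.1 hy) hxy
    · by_cases hya : y = a
      · subst hya
        rw [hfa, hfn x hxa]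
        exact hxy.trans hab
      · rw [hfn x hxa, hfn y hya]
        exact hxy
  have hfJ : (insert a J1).image f = insert b J1 := by
    rw [image_insert, hfa]
    congr 1
    ext q
    rw [mem_image]
    constructor
    · rintro ⟨p, hp, rfl⟩
      rwa [hfn p (fun h' => haJ1 (h' ▸ hp))]
    · intro hq
      exact ⟨q, hq, hfn q (fun h' => haJ1 (h' ▸ hq))⟩
  have hT1' : T1.image f ⊆ insert b T1 := by
    intro q hq
    obtain ⟨p, hp, rfl⟩ := mem_image.1 hq
    by_cases hpa : p = a
    · rw [hpa, hfa]; exact mem_insert_self _ _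
    · rw [hfn p hpa]; exact mem_insert_of_mem hp
  have s1 : rk (insert b T1) (prs (insert a J1)) = rkL (prs (insert a J1)) :=
    same_up h hL (subset_insert _ _) (prs_mono hT1) (hsame _ subset_rfl)
  have s2 : rk (insert b T1) (prs (insert b J1)) = rkL (prs (insert b J1)) := by
    have h1 := h.hom T1 f hfm (prs (insert a J1)) (prs_mono hT1)
    have h2 : (prs (insert a J1)).image (Sym2.map f) = prs (insert b J1) := by
      rw [image_prs (hfm.injOn.mono (by exact_mod_cast hT1)), hfJ]
    rw [h2, hsame _ subset_rfl] at h1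
    have h3 : rkL (prs (insert a J1)) = rkL (prs (insert b J1)) := by
      refine rkL_card h hL ?_
      rw [card_insert_of_notMem haJ1, card_insert_of_notMem hbJ1]
    rw [h3] at h1
    refine same_up h hL hT1' ?_ h1
    rw [← hfJ]
    exact prs_mono (image_subset_image hT1)
  have haJb : a ∉ insert b J1 := by
    rw [mem_insert, not_or]
    exact ⟨hab.ne, haJ1⟩
  have hJ1b : prs (insert b J1) ⊆ prs (insert b T1) := prs_mono (insert_subset_insert _ hJ1T)
  have hXsub : prs J1 ∪ star a J0 ⊆ prs (insert a J1) :=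
    union_subset (prs_mono (subset_insert _ _)) (star_subset_prs haJ1 hJ1)
  have hXT : prs (insert a J1) ⊆ prs (insert b T1) := prs_mono (hT1.trans (subset_insert _ _))
  have i1 := incr_le h (T := insert b T1) (X := prs J1 ∪ star a J0) (Y := prs (insert b J1))
    (U := prs (insert b J1) ∪ star a J0) (I := prs J1)
    (hXsub.trans hXT) hJ1b
    (by
      ext z
      simp only [mem_union]
      constructor
      · rintro ((h' | h') | h')
        · exact Or.inl (prs_mono (subset_insert _ _) h')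
        · exact Or.inr h'
        · exact Or.inl h'
      · rintro (h' | h')
        · exact Or.inr h'
        · exact Or.inl (Or.inr h'))
    (by
      ext z
      simp only [mem_inter, mem_union]
      constructor
      · rintro ⟨h' | h', h''⟩
        · exact h'
        · exfalso
          obtain ⟨q, hq, rfl⟩ := mem_image.1 h'
          exact haJb (mem_prs.1 h'').1
      · exact fun h' => ⟨Or.inl h', prs_mono (subset_insert _ _) h'⟩)
  have s3 : rk (insert b T1) (prs J1 ∪ star a J0) = rkL (prs J1 ∪ star a J0) :=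
    same_sub h hL hXsub hXT s1
  have l1 : rkL (prs J1) ≤ rk (insert b T1) (prs J1) :=
    hL.le _ _ ((prs_mono (subset_insert _ _)).trans hJ1b)
  have l2 := hmin (insert b J1) (hJ1.trans (subset_insert _ _)) haJb
  have hU : prs (insert b J1) ∪ star a J0 ⊆ prs (insert b T1) :=
    union_subset hJ1b (subset_union_right.trans (hXsub.trans hXT))
  have l3 : rkL (prs (insert b J1) ∪ star a J0) ≤
      rk (insert b T1) (prs (insert b J1) ∪ star a J0) := hL.le _ _ hU
  have s4 : rk (insert b T1) (prs (insert b J1) ∪ star a J0) =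
      rkL (prs (insert b J1) ∪ star a J0) := by omega
  have haJ0b : a ∉ insert b J0 := fun h' => haJb (insert_subset_insert _ hJ1 h')
  refine ⟨b, insert b T1, hab, fun h' => hbJ1 (hJ1 h'), ?_, ?_, ?_⟩
  · rintro q hq ⟨h1, h2⟩
    rcases mem_insert.1 hq with rfl | hq
    · exact lt_irrefl _ h2
    · exact lt_irrefl _ (h2.trans (hbT q hq h1))
  · intro q hq
    rcases mem_insert.1 hq with rfl | hq
    · exact mem_insert_of_mem haT1
    · exact insert_subset_insert _ (hJ1.trans hJ1T) hq
  · refine same_sub h hL ?_ hU s4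
    rw [prs_insert haJ0b]
    intro z hz
    rw [mem_erase, mem_union] at hz
    rw [mem_union]
    rcases hz with ⟨h1, h2 | h2⟩
    · exact Or.inl (prs_mono (insert_subset_insert _ hJ1) h2)
    · right
      obtain ⟨q, hq, rfl⟩ := mem_image.1 h2
      rcases mem_insert.1 hq with rfl | hq
      · exact absurd rfl h1
      · exact mem_image_of_mem _ hq

/-- Submodular extension of the pair bound. -/
theorem pair_bound {S S' : Finset ℚ} (hS : S ⊆ S') {x y : ℚ} (hx : x ∈ S) (hy : y ∈ S)
    (hxy : x ≠ y) {B : ℕ} (hb : rkL (prs S) ≤ rkL ((prs S).erase s(x, y)) + B) :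
    rkL (prs S') ≤ rkL ((prs S').erase s(x, y)) + B := by
  have h2 := incrL_le h hL (S := S') (X := (prs S').erase s(x, y)) (Y := prs S)
    (U := prs S') (I := (prs S).erase s(x, y))
    (erase_subset _ _) (prs_mono hS)
    (by
      ext z
      simp only [mem_union, mem_erase]
      constructor
      · rintro (h' | h')
        · exact h'.2
        · exact prs_mono hS h'
      · intro hz
        by_cases hzk : z = s(x, y)
        · right
          rw [hzk]
          exact mem_prs.2 ⟨hx, hy, hxy⟩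
        · exact Or.inl ⟨hzk, hz⟩)
    (by
      ext z
      simp only [mem_inter, mem_erase]
      exact ⟨fun h' => ⟨h'.1.1, h'.2⟩, fun h' => ⟨⟨h'.1, prs_mono hS h'.2⟩, h'.2⟩⟩)
  omega

/-- (8.1) one near pair: if the fibre over one context has dimension `≤ β`, then all near worlds
with more elements are far. -/
theorem near_same {J : Finset ℚ} {a b : ℚ} {T : Finset ℚ} (hab : a < b)
    (hT : ∀ q ∈ T, ¬ (a < q ∧ q < b)) (hJT : insert a (insert b J) ⊆ T)
    (hstar : rk T (prs (insert a (insert b J))) ≤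
      rkL ((prs (insert a (insert b J))).erase s(a, b)) + beta rkL)
    {J' : Finset ℚ} (hJ' : J ⊆ J') (ha' : a ∉ J') (hb' : b ∉ J')
    (hJ'n : ∀ q ∈ J', ¬ (a < q ∧ q < b)) :
    ∃ T', T ⊆ T' ∧ (∀ q ∈ T', ¬ (a < q ∧ q < b)) ∧ insert a (insert b J') ⊆ T' ∧
      rk T' (prs (insert a (insert b J'))) = rkL (prs (insert a (insert b J'))) := by
  obtain ⟨b', T2, hab', hb'J, hT2, hJT2, hs2⟩ := near_rest h hL J' a ha'
  set S : Finset ℚ := insert a (insert b' J') with hS
  have haS : a ∈ S := mem_insert_self _ _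
  have hbS : b' ∈ S := mem_insert_of_mem (mem_insert_self _ _)
  set f : ℚ → ℚ := fun q => if q = b' then b else q with hf
  have hfb : f b' = b := by simp [hf]
  have hfn : ∀ q, q ≠ b' → f q = q := fun q hq => by simp [hf, hq]
  have hfm : StrictMonoOn f S := by
    intro x hx y hy hxy
    have hx' := mem_coe.1 hx
    have hy' := mem_coe.1 hy
    by_cases hxb : x = b'
    · subst hxb
      rw [hfb, hfn y hxy.ne']
      -- `y > b'`, so `y ∈ J'`
      have hyJ : y ∈ J' := by
        rw [hS, mem_insert, mem_insert] at hy'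
        rcases hy' with rfl | rfl | h'
        · exact absurd (hab'.trans hxy) (lt_irrefl _)
        · exact absurd hxy (lt_irrefl _)
        · exact h'
      have hay : a < y := hab'.trans hxy
      by_contra hc
      rcases lt_or_eq_of_le (not_lt.1 hc) with h1 | h1
      · exact hJ'n y hyJ ⟨hay, h1⟩
      · exact hb' (h1 ▸ hyJ)
    · by_cases hyb : y = b'
      · subst hyb
        rw [hfb, hfn x hxb]
        -- `x < b'`, so `x ≤ a`
        have hxa : x ≤ a := by
          by_contra hc
          exact hT2 x (hJT2 hx') ⟨not_le.1 hc, hxy⟩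
        exact lt_of_le_of_lt hxa hab
      · rw [hfn x hxb, hfn y hyb]
        exact hxy
  obtain ⟨g, hg1, hg2⟩ := exists_extend hJT2 hfm
  have hga : g a = a := by rw [hg2 a haS, hfn a hab'.ne]
  have hgb : g b' = b := by rw [hg2 b' hbS, hfb]
  have hgS : S.image g = insert a (insert b J') := by
    rw [hS, image_insert, image_insert, hga, hgb]
    congr 2
    ext q
    rw [mem_image]
    constructor
    · rintro ⟨p, hp, rfl⟩
      rw [hg2 p (mem_insert_of_mem (mem_insert_of_mem hp)), hfn p (fun h' => hb'J (h' ▸ hp))]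
      exact hp
    · intro hq
      refine ⟨q, hq, ?_⟩
      rw [hg2 q (mem_insert_of_mem (mem_insert_of_mem hq)), hfn q (fun h' => hb'J (h' ▸ hq))]
  have hginj : Set.InjOn g S := hg1.injOn.mono (by exact_mod_cast hJT2)
  have hX : ((prs S).erase s(a, b')).image (Sym2.map g) =
      (prs (insert a (insert b J'))).erase s(a, b) := by
    rw [image_erase_of_injOn (map_injOn hginj) (mem_prs.2 ⟨haS, hbS, hab'.ne⟩),
      image_prs hginj, hgS, Sym2.map_mk, hga, hgb]
  have hs3 : rk (T2.image g) ((prs (insert a (insert b J'))).erase s(a, b)) =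
      rkL ((prs (insert a (insert b J'))).erase s(a, b)) := by
    rw [← hX, h.hom T2 g hg1 _ ((erase_subset _ _).trans (prs_mono hJT2)),
      rkL_hom h hL (S := S) (hg1.mono (by exact_mod_cast hJT2)) (erase_subset _ _), hs2]
  have hsubT3 : insert a (insert b J') ⊆ T2.image g := by
    rw [← hgS]; exact image_subset_image hJT2
  have hsubT' : insert a (insert b J') ⊆ T ∪ T2.image g := hsubT3.trans subset_union_right
  have hJJ : insert a (insert b J) ⊆ insert a (insert b J') :=
    insert_subset_insert _ (insert_subset_insert _ hJ')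
  have haI : a ∈ insert a (insert b J) := mem_insert_self _ _
  have hbI : b ∈ insert a (insert b J) := mem_insert_of_mem (mem_insert_self _ _)
  refine ⟨T ∪ T2.image g, subset_union_left, ?_, hsubT', ?_⟩
  · rintro q hq hq2
    rcases mem_union.1 hq with hq | hq
    · exact hT q hq hq2
    · obtain ⟨p, hp, rfl⟩ := mem_image.1 hq
      refine hT2 p hp ⟨?_, ?_⟩
      · rw [← hg1.lt_iff_lt (mem_coe.2 (hJT2 haS)) (mem_coe.2 hp), hga]
        exact hq2.1
      · rw [← hg1.lt_iff_lt (mem_coe.2 hp) (mem_coe.2 (hJT2 hbS)), hgb]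
        exact hq2.2
  · have s3 := same_up h hL (T := T2.image g) (T' := T ∪ T2.image g) subset_union_right
      ((erase_subset _ _).trans (prs_mono hsubT3)) hs3
    have i1 := incr_le h (T := T ∪ T2.image g)
      (X := (prs (insert a (insert b J'))).erase s(a, b)) (Y := prs (insert a (insert b J)))
      (U := prs (insert a (insert b J'))) (I := (prs (insert a (insert b J))).erase s(a, b))
      ((erase_subset _ _).trans (prs_mono hsubT')) (prs_mono (hJJ.trans hsubT'))
      (by
        ext z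
        simp only [mem_union, mem_erase]
        constructor
        · rintro (h' | h')
          · exact h'.2
          · exact prs_mono hJJ h'
        · intro hz
          by_cases hzk : z = s(a, b)
          · right
            rw [hzk]
            exact mem_prs.2 ⟨haI, hbI, hab.ne⟩
          · exact Or.inl ⟨hzk, hz⟩)
      (by
        ext z
        simp only [mem_inter, mem_erase]
        exact ⟨fun h' => ⟨h'.1.1, h'.2⟩, fun h' => ⟨⟨h'.1, prs_mono hJJ h'.2⟩, h'.2⟩⟩)
    have i2 : rk (T ∪ T2.image g) (prs (insert a (insert b J))) ≤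
        rk T (prs (insert a (insert b J))) :=
      h.anti _ _ _ subset_union_left (prs_mono hJT)
    have i3 : rkL ((prs (insert a (insert b J))).erase s(a, b)) ≤
        rk (T ∪ T2.image g) ((prs (insert a (insert b J))).erase s(a, b)) :=
      hL.le _ _ ((erase_subset _ _).trans (prs_mono (hJJ.trans hsubT')))
    have i4 := beta_le h hL (S := insert a (insert b J')) (hJJ haI) (hJJ hbI) hab.ne
    have i5 : rkL (prs (insert a (insert b J'))) ≤
        rk (T ∪ T2.image g) (prs (insert a (insert b J'))) := hL.le _ _ (prs_mono hsubT')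
    omega

end near

section cluster

variable {rk : Finset ℚ → Finset (Sym2 ℚ) → ℕ} {rkL : Finset (Sym2 ℚ) → ℕ}
variable (h : PSys rk) (hL : FarRank rk rkL)

/-- moving `a < b` to `x < y` inside `[a, b]` -/
theorem exists_move {W : Finset ℚ} {a b x y : ℚ} (hab : a < b) (hxy : x < y) (hax : a ≤ x)
    (hyb : y ≤ b) (hW : ∀ q ∈ W, q < a ∨ b < q) :
    ∃ f : ℚ → ℚ, StrictMonoOn f (insert a (insert b W) : Finset ℚ) ∧ f a = x ∧ f b = y ∧
      ∀ q ∈ W, f q = q := by
  refine ⟨fun q => if q = a then x else if q = b then y else q, ?_, ?_, ?_, ?_⟩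
  · intro p hp q hq hpq
    rw [mem_coe, mem_insert, mem_insert] at hp hq
    have hba : b ≠ a := hab.ne'
    rcases hp with rfl | rfl | hp
    · rcases hq with rfl | rfl | hq
      · exact absurd hpq (lt_irrefl _)
      · simp only [if_true, if_neg hba]
        exact hxy
      · rcases hW q hq with h1 | h1
        · exact absurd (hpq.trans h1) (lt_irrefl _)
        · simp only [if_true, if_neg hpq.ne', if_neg h1.ne']
          exact (hxy.trans_le hyb).trans h1
    · rcases hq with rfl | rfl | hq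
      · exact absurd (hpq.trans hab) (lt_irrefl _)
      · exact absurd hpq (lt_irrefl _)
      · simp only [if_true, if_neg hba, if_neg (hab.trans hpq).ne', if_neg hpq.ne']
        exact hyb.trans_lt hpq
    · have hpa : p ≠ a := by
        rcases hW p hp with h1 | h1
        · exact h1.ne
        · exact (hab.trans h1).ne'
      have hpb : p ≠ b := by
        rcases hW p hp with h1 | h1
        · exact (h1.trans hab).ne
        · exact h1.ne'
      rcases hq with rfl | rfl | hq
      · simp only [if_true, if_neg hpa, if_neg hpb]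
        exact hpq.trans_le hax
      · simp only [if_true, if_neg hpa, if_neg hpb, if_neg hba]
        rcases hW p hp with h1 | h1
        · exact (h1.trans_le hax).trans hxy
        · exact absurd (h1.trans hpq) (lt_irrefl _)
      · have hqa : q ≠ a := by
          rcases hW q hq with h1 | h1
          · exact h1.ne
          · exact (hab.trans h1).ne'
        have hqb : q ≠ b := by
          rcases hW q hq with h1 | h1
          · exact (h1.trans hab).ne
          · exact h1.ne'
        simp only [if_neg hpa, if_neg hpb, if_neg hqa, if_neg hqb]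
        exact hpq
  · simp
  · simp [hab.ne']
  · intro q hq
    have hqa : q ≠ a := by
      rcases hW q hq with h1 | h1
      · exact h1.ne
      · exact (hab.trans h1).ne'
    have hqb : q ≠ b := by
      rcases hW q hq with h1 | h1
      · exact (h1.trans hab).ne
      · exact h1.ne'
    simp only [if_neg hqa, if_neg hqb]

theorem image_move {W : Finset ℚ} {a b x y : ℚ} {f : ℚ → ℚ} (ha : f a = x) (hb : f b = y)
    (hW : ∀ q ∈ W, f q = q) :
    (insert a (insert b W)).image f = insert x (insert y W) := by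
  rw [image_insert, image_insert, ha, hb]
  congr 2
  ext q
  rw [mem_image]
  constructor
  · rintro ⟨p, hp, rfl⟩
    rw [hW p hp]
    exact hp
  · intro hq
    exact ⟨q, hq, hW q hq⟩

include h hL

/-- THE CLUSTER: with fixed outer data, every cluster is far. -/
theorem cluster {n0 a0 : ℕ} (hg : ∀ n, n0 ≤ n → rn rkL (n + 1) = rn rkL n + beta rkL * n + a0)
    {W J : Finset ℚ} {a b : ℚ} (hab : a < b) (hW : ∀ q ∈ W, q < a ∨ b < q) (hJW : J ⊆ W)
    (hJc : n0 ≤ J.card)
    (hbase : rk (insert a (insert b W)) (prs (insert a (insert b J))) =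
      rkL (prs (insert a (insert b J))))
    (hpair : rkL (prs (insert a (insert b J))) ≤
      rkL ((prs (insert a (insert b J))).erase s(a, b)) + beta rkL)
    (X : Finset ℚ) (hX : ∀ q ∈ X, a ≤ q ∧ q ≤ b) (hX2 : 2 ≤ X.card) :
    rk (W ∪ X) (prs (J ∪ X)) = rkL (prs (J ∪ X)) := by
  have hJ : ∀ q ∈ J, q < a ∨ b < q := fun q hq => hW q (hJW hq)
  -- the pair bound for all pairs in the window
  have hpair2 : ∀ x y : ℚ, x < y → a ≤ x → y ≤ b → rkL (prs (insert x (insert y J))) ≤
      rkL ((prs (insert x (insert y J))).erase s(x, y)) + beta rkL := by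
    intro x y hxy hax hyb
    obtain ⟨f, hf1, hf2, hf3, hf4⟩ := exists_move hab hxy hax hyb hJ
    have h1 := image_move hf2 hf3 hf4
    have haI : a ∈ insert a (insert b J) := mem_insert_self _ _
    have hbI : b ∈ insert a (insert b J) := mem_insert_of_mem (mem_insert_self _ _)
    have h2 : ((prs (insert a (insert b J))).erase s(a, b)).image (Sym2.map f) =
        (prs (insert x (insert y J))).erase s(x, y) := by
      rw [image_erase_of_injOn (map_injOn hf1.injOn) (mem_prs.2 ⟨haI, hbI, hab.ne⟩),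
        image_prs hf1.injOn, h1, Sym2.map_mk, hf2, hf3]
    have h3 := rkL_hom h hL hf1 (X := prs (insert a (insert b J))) subset_rfl
    have h4 := rkL_hom h hL hf1 (X := (prs (insert a (insert b J))).erase s(a, b))
      (erase_subset _ _)
    rw [image_prs hf1.injOn, h1] at h3
    rw [h2] at h4
    rw [h3, h4]
    exact hpair
  have hpair3 : ∀ x y : ℚ, x ≠ y → a ≤ x → x ≤ b → a ≤ y → y ≤ b →
      rkL (prs (insert x (insert y J))) ≤
      rkL ((prs (insert x (insert y J))).erase s(x, y)) + beta rkL := by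
    intro x y hxy hax hxb hay hyb
    rcases lt_or_gt_of_ne hxy with h1 | h1
    · exact hpair2 x y h1 hax hyb
    · have h2 := hpair2 y x h1 hay hxb
      rw [Sym2.eq_swap, insert_comm]
      exact h2
  have hdisj : ∀ q ∈ X, q ∉ J := by
    intro q hq hqJ
    rcases hJ q hqJ with h1 | h1
    · exact absurd (hX q hq).1 (not_le.2 h1)
    · exact absurd (hX q hq).2 (not_le.2 h1)
  -- induction on the number of elements
  induction hn : X.card using Nat.strong_induction_on generalizing X with
  | _ n ih =>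
    rcases Nat.lt_or_ge 2 n with hn2 | hn2
    · -- at least three elements
      obtain ⟨x, hx, y, hy, e, he, hxy, hxe, hye⟩ := two_lt_card.1 (hn ▸ hn2)
      have key : ∀ u ∈ X, rk (W ∪ X) (prs ((J ∪ X).erase u)) = rkL (prs ((J ∪ X).erase u)) := by
        intro u hu
        have h1 : (J ∪ X).erase u = J ∪ X.erase u := by
          rw [erase_union_distrib, erase_eq_of_notMem (hdisj u hu)]
        have h2 : (X.erase u).card = n - 1 := by rw [card_erase_of_mem hu, hn]
        have h3 := ih (n - 1) (by omega) (X.erase u) (fun q hq => hX q (mem_of_mem_erase hq))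
          (by omega) (fun q hq => hdisj q (mem_of_mem_erase hq)) h2
        rw [h1]
        exact same_up h hL (union_subset_union subset_rfl (erase_subset _ _))
          (prs_mono (union_subset_union hJW subset_rfl)) h3
      refine glue h hL hg (x := x) (y := y) (e := e) (union_subset_union hJW subset_rfl)
        (mem_union_right _ hx) (mem_union_right _ hy) (mem_union_right _ he) hxy hxe.symm hye.symm
        ?_ (key x hx) (key y hy) (key e he) ?_
      · rw [card_union_of_disjoint (Finset.disjoint_left.2 fun q hq hq' => hdisj q hq' hq)]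
        omega
      · refine pair_bound h hL (S := insert x (insert y J)) ?_ (mem_insert_self _ _)
          (mem_insert_of_mem (mem_insert_self _ _)) hxy
          (hpair3 x y hxy (hX x hx).1 (hX x hx).2 (hX y hy).1 (hX y hy).2)
        intro q hq
        rw [mem_insert, mem_insert] at hq
        rw [mem_erase, mem_union]
        rcases hq with rfl | rfl | hq
        · exact ⟨hxe, Or.inr hx⟩
        · exact ⟨hye, Or.inr hy⟩
        · exact ⟨fun h' => hdisj e he (h' ▸ hq), Or.inl hq⟩
    · -- exactly two elements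
      have hc2 : X.card = 2 := by omega
      obtain ⟨x, y, hxy, rfl⟩ := card_eq_two.1 hc2
      have hmain : ∀ x y : ℚ, x < y → a ≤ x → y ≤ b →
          rk (W ∪ {x, y}) (prs (J ∪ {x, y})) = rkL (prs (J ∪ {x, y})) := by
        intro x y hxy hax hyb
        obtain ⟨f, hf1, hf2, hf3, hf4⟩ := exists_move hab hxy hax hyb hW
        have h1 := image_move hf2 hf3 hf4
        have h2 := image_move (W := J) hf2 hf3 (fun q hq => hf4 q (hJW hq))
        have hsub : insert a (insert b J) ⊆ insert a (insert b W) :=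
          insert_subset_insert _ (insert_subset_insert _ hJW)
        have hinj : Set.InjOn f (insert a (insert b J) : Finset ℚ) :=
          hf1.injOn.mono (by exact_mod_cast hsub)
        have h3 := h.hom _ f hf1 (prs (insert a (insert b J))) (prs_mono hsub)
        have h4 := rkL_hom h hL hf1 (X := prs (insert a (insert b J))) (prs_mono hsub)
        rw [image_prs hinj, h2] at h3 h4
        rw [h1] at h3
        have e1 : W ∪ {x, y} = insert x (insert y W) := by
          ext q; simp only [mem_union, mem_insert, mem_singleton]; tauto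
        have e2 : J ∪ {x, y} = insert x (insert y J) := by
          ext q; simp only [mem_union, mem_insert, mem_singleton]; tauto
        rw [e1, e2, h3, h4, hbase]
      have hxX := hX x (by simp)
      have hyX := hX y (by simp)
      rcases lt_or_gt_of_ne hxy with h1 | h1
      · exact hmain x y h1 hxX.1 hyX.2
      · have h2 := hmain y x h1 hyX.1 hxX.2
        rwa [pair_comm] at h2

/-- THE UNIFORM OUTER THRESHOLD (sections 2 and 8). -/
theorem uniform {J : Finset ℚ} {a b : ℚ} {T : Finset ℚ} (hab : a < b)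
    (hT : ∀ q ∈ T, ¬ (a < q ∧ q < b)) (hJT : insert a (insert b J) ⊆ T) (ha : a ∉ J) (hb : b ∉ J)
    (hstar : rk T (prs (insert a (insert b J))) ≤
      rkL ((prs (insert a (insert b J))).erase s(a, b)) + beta rkL) :
    ∃ E : ℕ, ∀ I T : Finset ℚ, I ⊆ T → E ≤ (T.filter fun q => ∀ i ∈ I, q < i).card →
      E ≤ (T.filter fun q => ∀ i ∈ I, i < q).card → ∀ X ⊆ prs I, rk T X = rkL X := by
  obtain ⟨n0, a0, hg⟩ := rn_growth h hL
  -- a larger context
  obtain ⟨J', hJJ', hJ'c, ha', hb', hJ'n⟩ : ∃ J' : Finset ℚ, J ⊆ J' ∧ n0 ≤ J'.card ∧ a ∉ J' ∧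
      b ∉ J' ∧ ∀ q ∈ J', ¬ (a < q ∧ q < b) := by
    refine ⟨J ∪ (range n0).image (fun i : ℕ => a - 1 - (i : ℚ)), subset_union_left, ?_, ?_, ?_, ?_⟩
    · refine le_trans ?_ (card_le_card (subset_union_right (s₁ := J)))
      rw [card_image_of_injective _ (fun i j hij => by
        have : (i : ℚ) = j := by linarith
        exact_mod_cast this), card_range]
    · rw [mem_union, not_or]
      refine ⟨ha, fun hm => ?_⟩
      obtain ⟨i, -, hi⟩ := mem_image.1 hm
      have : (0 : ℚ) ≤ i := Nat.cast_nonneg i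
      linarith
    · rw [mem_union, not_or]
      refine ⟨hb, fun hm => ?_⟩
      obtain ⟨i, -, hi⟩ := mem_image.1 hm
      have : (0 : ℚ) ≤ i := Nat.cast_nonneg i
      linarith
    · intro q hq hq2
      rcases mem_union.1 hq with hq | hq
      · exact hT q (hJT (mem_insert_of_mem (mem_insert_of_mem hq))) hq2
      · obtain ⟨i, -, rfl⟩ := mem_image.1 hq
        have : (0 : ℚ) ≤ i := Nat.cast_nonneg i
        linarith [hq2.1]
  obtain ⟨T', -, hT'n, hT'J, hs⟩ := near_same h hL hab hT hJT hstar hJJ' ha' hb' hJ'n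
  -- outer data
  set W : Finset ℚ := T'.filter fun q => q < a ∨ b < q with hW
  have haT' : a ∈ T' := hT'J (mem_insert_self _ _)
  have hbT' : b ∈ T' := hT'J (mem_insert_of_mem (mem_insert_self _ _))
  have hTW : insert a (insert b W) = T' := by
    ext q
    rw [mem_insert, mem_insert, hW, mem_filter]
    constructor
    · rintro (rfl | rfl | h')
      · exact haT'
      · exact hbT'
      · exact h'.1
    · intro hq
      by_cases hqa : q = a
      · exact Or.inl hqa
      · by_cases hqb : q = b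
        · exact Or.inr (Or.inl hqb)
        · right; right
          refine ⟨hq, ?_⟩
          rcases lt_or_gt_of_ne hqa with h1 | h1
          · exact Or.inl h1
          · rcases lt_or_gt_of_ne hqb with h2 | h2
            · exact absurd ⟨h1, h2⟩ (hT'n q hq)
            · exact Or.inr h2
  have hJ'W : J' ⊆ W := by
    intro q hq
    rw [hW, mem_filter]
    refine ⟨hT'J (mem_insert_of_mem (mem_insert_of_mem hq)), ?_⟩
    have hqa : q ≠ a := fun h' => ha' (h' ▸ hq)
    have hqb : q ≠ b := fun h' => hb' (h' ▸ hq)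
    rcases lt_or_gt_of_ne hqa with h1 | h1
    · exact Or.inl h1
    · rcases lt_or_gt_of_ne hqb with h2 | h2
      · exact absurd ⟨h1, h2⟩ (hJ'n q hq)
      · exact Or.inr h2
  have hWab : ∀ q ∈ W, q < a ∨ b < q := fun q hq => (mem_filter.1 hq).2
  have hJJ : insert a (insert b J) ⊆ insert a (insert b J') :=
    insert_subset_insert _ (insert_subset_insert _ hJJ')
  have hstarL : rkL (prs (insert a (insert b J))) ≤
      rkL ((prs (insert a (insert b J))).erase s(a, b)) + beta rkL :=
    (hL.le _ _ (prs_mono hJT)).trans hstar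
  have hpair := pair_bound h hL hJJ (mem_insert_self _ _)
    (mem_insert_of_mem (mem_insert_self _ _)) hab.ne hstarL
  have hC := cluster h hL hg hab hWab hJ'W hJ'c (by rw [hTW]; exact hs) hpair
  -- all clusters
  have hC2 : ∀ X : Finset ℚ, (∀ q ∈ X, a ≤ q ∧ q ≤ b) → 2 ≤ X.card → ∀ Y ⊆ prs X,
      rk (W ∪ X) Y = rkL Y := by
    intro X hX hX2 Y hY
    exact same_sub h hL (hY.trans (prs_mono subset_union_right))
      (prs_mono (union_subset_union hJ'W subset_rfl)) (hC X hX hX2)
  set Wl : Finset ℚ := W.filter fun q => q < a with hWl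
  set Wr : Finset ℚ := W.filter fun q => b < q with hWr
  have hWlr : W = Wl ∪ Wr := by
    rw [hWl, hWr, ← filter_or, filter_true_of_mem hWab]
  refine ⟨W.card + 2, fun I T hIT hE1 hE2 X hX => ?_⟩
  -- points in the window
  have hwin : ∀ n : ℕ, ∃ X0 : Finset ℚ, X0.card = n ∧ ∀ q ∈ X0, a ≤ q ∧ q ≤ b := by
    intro n
    obtain ⟨X0, h1, h2⟩ := (Set.Icc_infinite hab).exists_subset_card_eq n
    exact ⟨X0, h2, fun q hq => h1 (mem_coe.2 hq)⟩
  rcases Nat.lt_or_ge I.card 2 with hI2 | hI2
  · -- at most one element: no pairs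
    have hX0 : X = ∅ := by
      rw [eq_empty_iff_forall_notMem]
      intro z hz
      have hz' := hX hz
      induction z using Sym2.ind with
      | _ p q =>
        rw [mem_prs] at hz'
        have : 1 < I.card := one_lt_card.2 ⟨p, hz'.1, q, hz'.2.1, hz'.2.2⟩
        omega
    subst hX0
    obtain ⟨X0, hX0c, hX0⟩ := hwin 2
    have hcard : (W ∪ X0).card ≤ T.card := by
      refine (card_union_le _ _).trans ?_
      rw [hX0c]
      exact hE1.trans (card_le_card (filter_subset _ _))
    obtain ⟨T0, hT0, hT0c⟩ := exists_subset_card_eq hcard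
    obtain ⟨f, hf1, hf2⟩ := exists_iso hT0c.symm
    have h1 := h.hom _ f hf1 ∅ (empty_subset _)
    rw [hf2, image_empty] at h1
    have h2 := hC2 X0 hX0 (by omega) ∅ (empty_subset _)
    exact same_up h hL hT0 (empty_subset _) (h1.trans h2)
  · obtain ⟨X0, hX0c, hX0⟩ := hwin I.card
    have hcl : Wl.card ≤ (T.filter fun q => ∀ i ∈ I, q < i).card :=
      (card_le_card (filter_subset _ _)).trans (by omega)
    have hcr : Wr.card ≤ (T.filter fun q => ∀ i ∈ I, i < q).card :=
      (card_le_card (filter_subset _ _)).trans (by omega)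
    obtain ⟨L, hLs, hLc⟩ := exists_subset_card_eq hcl
    obtain ⟨R, hRs, hRc⟩ := exists_subset_card_eq hcr
    obtain ⟨fl, hfl1, hfl2⟩ := exists_iso hLc.symm
    obtain ⟨fr, hfr1, hfr2⟩ := exists_iso hRc.symm
    obtain ⟨fi, hfi1, hfi2⟩ := exists_iso hX0c
    have hIne : I.Nonempty := card_pos.1 (by omega)
    obtain ⟨i0, hi0⟩ := hIne
    have hflL : ∀ x ∈ Wl, fl x ∈ L := fun x hx => hfl2 ▸ mem_image_of_mem _ hx
    have hfrR : ∀ x ∈ Wr, fr x ∈ R := fun x hx => hfr2 ▸ mem_image_of_mem _ hx
    have hfiI : ∀ x ∈ X0, fi x ∈ I := fun x hx => hfi2 ▸ mem_image_of_mem _ hx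
    have hLI : ∀ l ∈ L, ∀ i ∈ I, l < i := fun l hl => (mem_filter.1 (hLs hl)).2
    have hIR : ∀ r ∈ R, ∀ i ∈ I, i < r := fun r hr => (mem_filter.1 (hRs hr)).2
    obtain ⟨g1, hg11, hg12, hg13⟩ := exists_glue (A := Wl) (A' := X0) (f := fl) (f' := fi)
      (fun x hx y hy => (mem_filter.1 hx).2.trans_le (hX0 y hy).1) hfl1 hfi1
      (fun x hx y hy => hLI _ (hflL x hx) _ (hfiI y hy))
    obtain ⟨g2, hg21, hg22, hg23⟩ := exists_glue (A := Wl ∪ X0) (A' := Wr) (f := g1) (f' := fr)
      (by
        intro x hx y hy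
        rcases mem_union.1 hx with hx | hx
        · exact ((mem_filter.1 hx).2.trans hab).trans (mem_filter.1 hy).2
        · exact (hX0 x hx).2.trans_lt (mem_filter.1 hy).2) hg11 hfr1
      (by
        intro x hx y hy
        rcases mem_union.1 hx with hx | hx
        · rw [hg12 x hx]
          exact (hLI _ (hflL x hx) i0 hi0).trans (hIR _ (hfrR y hy) i0 hi0)
        · rw [hg13 x hx]
          exact hIR _ (hfrR y hy) _ (hfiI x hx))
    have hset : Wl ∪ X0 ∪ Wr = W ∪ X0 := by
      rw [hWlr]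
      ext q; simp only [mem_union]; tauto
    rw [hset] at hg21
    have himX : X0.image g2 = I := by
      rw [← hfi2]
      refine image_congr fun x hx => ?_
      rw [hg22 x (mem_union_right _ (mem_coe.1 hx)), hg13 x (mem_coe.1 hx)]
    have himT : (W ∪ X0).image g2 ⊆ T := by
      intro q hq
      obtain ⟨p, hp, rfl⟩ := mem_image.1 hq
      rw [← hset, mem_union, mem_union] at hp
      rcases hp with (hp | hp) | hp
      · rw [hg22 p (mem_union_left _ hp), hg12 p hp]
        exact (mem_filter.1 (hLs (hflL p hp))).1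
      · rw [hg22 p (mem_union_right _ hp), hg13 p hp]
        exact hIT (hfiI p hp)
      · rw [hg23 p hp]
        exact (mem_filter.1 (hRs (hfrR p hp))).1
    have hinj : Set.InjOn g2 X0 := hg21.injOn.mono (by
      intro q hq
      exact mem_coe.2 (mem_union_right _ (mem_coe.1 hq)))
    have hprsX0 : prs X0 ⊆ prs (W ∪ X0) := prs_mono subset_union_right
    have h1 := h.hom _ g2 hg21 (prs X0) hprsX0
    have h2 := rkL_hom h hL hg21 hprsX0
    rw [image_prs hinj, himX] at h1 h2
    have h3 := hC2 X0 hX0 (by omega) (prs X0) subset_rfl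
    have h4 : rk ((W ∪ X0).image g2) (prs I) = rkL (prs I) := by rw [h1, h3, h2]
    have hIim : I ⊆ (W ∪ X0).image g2 := by
      rw [← himX]
      exact image_subset_image subset_union_right
    exact same_sub h hL hX (prs_mono hIT) (same_up h hL himT (prs_mono hIim) h4)

end cluster

end Pool.Agent.Lib.MP_0c183c_co_P9G
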